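import Pool.Agent.U74.BC.Com

/-!
# Linear groups
-/

set_option autoImplicit false

namespace Pool.Agent.U74.BC

open Subgroup
open Pool.Agent.Y110.FJ
open Pool.Agent.R941.FJ (C_equiv C_le C_cyc)

variable {C : ∀ (G : Type) [Group G], Prop} {F : Type} [Field F]

/-- general linear groups of finite-dimensional spaces -/
theorem C_gl (hC : ClosedE C) (hL : ∀ n : ℕ, C (Matrix.GeneralLinearGroup (Fin n) F)) {E : Type}
    [AddCommGroup E] [Module F E] [FiniteDimensional F E] : C (E ≃ₗ[F] E) := by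
  let b := Module.finBasis F E
  let e1 : Matrix.GeneralLinearGroup (Fin (Module.finrank F E)) F ≃* LinearMap.GeneralLinearGroup F E :=
    Units.mapEquiv (LinearMap.toMatrixAlgEquiv b).toMulEquiv.symm
  let e2 : LinearMap.GeneralLinearGroup F E ≃* (E ≃ₗ[F] E) :=
    LinearMap.GeneralLinearGroup.generalLinearEquiv F E
  exact C_equiv hC.base (e1.trans e2).symm (hL _)

/-- central extensions of linear groups modulo central cyclic subgroups -/
theorem lin_quo (hC : ClosedE C) (hM : ∀ (G : Type) [Group G], derivedSeries G 2 = ⊥ → C G)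
    (hL : ∀ n : ℕ, C (Matrix.GeneralLinearGroup (Fin n) F)) {n : ℕ} {Z : Type} [Group Z]
    (ρ : Z →* Matrix.GeneralLinearGroup (Fin n) F) (hρ : Function.Injective ρ) (z : Z)
    (hz : ∀ g, z * g = g * z) (hn : (Subgroup.zpowers z).Normal) : C (Z ⧸ Subgroup.zpowers z) := by
  obtain ⟨E, hE⟩ : ∃ E : Subalgebra F (Matrix (Fin n) (Fin n) F),
      E = Subalgebra.centralizer F {(ρ z : Matrix (Fin n) (Fin n) F)} := ⟨_, rfl⟩
  have hmE : ∀ x, x ∈ E ↔ (ρ z : Matrix (Fin n) (Fin n) F) * x = x * ρ z := by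
    intro x
    rw [hE, Subalgebra.mem_centralizer_iff]
    exact ⟨fun h => h _ rfl, fun h g hg => by rw [Set.mem_singleton_iff.1 hg]; exact h⟩
  have hρE : ∀ g : Z, (ρ g : Matrix (Fin n) (Fin n) F) ∈ E := by
    intro g
    rw [hmE, ← Units.val_mul, ← Units.val_mul, ← map_mul, ← map_mul, hz]
  have hconj : ∀ (g : Z) (x : Matrix (Fin n) (Fin n) F), x ∈ E →
      (ρ g : Matrix (Fin n) (Fin n) F) * x * ((ρ g)⁻¹ : (Matrix (Fin n) (Fin n) F)ˣ) ∈ E := by
    intro g x hx
    refine E.mul_mem (E.mul_mem (hρE g) hx) ?_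
    rw [← map_inv]
    exact hρE _
  let act : Z → E →ₗ[F] E := fun g =>
    { toFun := fun x => ⟨_, hconj g x x.2⟩
      map_add' := fun x y => Subtype.ext (by simp [mul_add, add_mul])
      map_smul' := fun c x => Subtype.ext (by simp) }
  have hact : ∀ (g : Z) (x : E), ((act g x : E) : Matrix (Fin n) (Fin n) F) =
    (ρ g : Matrix (Fin n) (Fin n) F) * x * ((ρ g)⁻¹ : (Matrix (Fin n) (Fin n) F)ˣ) := fun _ _ => rfl
  have hmul : ∀ (g h : Z) (x : E), act (g * h) x = act g (act h x) := by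
    intro g h x
    apply Subtype.ext
    rw [hact, hact, hact, map_mul, mul_inv_rev, Units.val_mul, Units.val_mul]
    simp only [mul_assoc]
  have hone : ∀ x : E, act 1 x = x := by
    intro x
    apply Subtype.ext
    rw [hact, map_one, inv_one, Units.val_one, one_mul, mul_one]
  let θ : Z →* (E ≃ₗ[F] E) := MonoidHom.mk' (fun g => LinearEquiv.ofLinearMap (act g) (act g⁻¹)
      (by ext x : 1; show act g (act g⁻¹ x) = x; rw [← hmul, mul_inv_cancel, hone])
      (by ext x : 1; show act g⁻¹ (act g x) = x; rw [← hmul, inv_mul_cancel, hone])) (by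
    intro g h
    ext x : 1
    exact hmul g h x)
  have hθ : ∀ (g : Z) (x : E), θ g x = act g x := fun _ _ => rfl
  have hker : ∀ g : Z, θ g = 1 → ∀ h : Z, g * h = h * g := by
    intro g hg h
    apply hρ
    have h1 : θ g ⟨_, hρE h⟩ = ⟨_, hρE h⟩ := by rw [hg]; rfl
    rw [hθ] at h1
    have h2 := congrArg Subtype.val h1
    rw [hact] at h2
    apply Units.ext
    rw [map_mul, map_mul, Units.val_mul, Units.val_mul]
    have h3 : (ρ g : Matrix (Fin n) (Fin n) F) * ρ h * ((ρ g)⁻¹ : (Matrix (Fin n) (Fin n) F)ˣ) = ρ h := h2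
    have h4 := congrArg (fun m => m * (ρ g : Matrix (Fin n) (Fin n) F)) h3
    simp only [mul_assoc, Units.inv_mul, mul_one] at h4
    exact h4
  have hθz : θ z = 1 := by
    ext x : 1
    apply Subtype.ext
    show ((θ z x : E) : Matrix (Fin n) (Fin n) F) = x
    rw [hθ, hact, (hmE _).1 x.2, mul_assoc, Units.mul_inv, mul_one]
  -- the homomorphism on the quotient
  let Θ : Z ⧸ Subgroup.zpowers z →* (E ≃ₗ[F] E) := QuotientGroup.lift _ θ (by
    rintro _ ⟨k, rfl⟩
    show θ (z ^ k) = 1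
    rw [map_zpow, hθz, one_zpow])
  have hΘ : ∀ g : Z, Θ (g : Z ⧸ Subgroup.zpowers z) = θ g := fun _ => rfl
  have hcen : ∀ x ∈ Θ.ker, ∀ y : Z ⧸ Subgroup.zpowers z, x * y = y * x := by
    intro x hx y
    obtain ⟨g, rfl⟩ := QuotientGroup.mk_surjective x
    obtain ⟨h, rfl⟩ := QuotientGroup.mk_surjective y
    rw [MonoidHom.mem_ker] at hx
    have h1 : θ g = 1 := hx
    show ((g * h : Z) : Z ⧸ Subgroup.zpowers z) = ((h * g : Z) : Z ⧸ Subgroup.zpowers z)
    rw [hker g h1 h]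
  refine Pool.Agent.Y529.FJ.t_ext C hC _ Θ.ker ?_ ?_ fun g _ => ?_
  · exact C_ab hM _ fun x hx y _ => hcen x hx y
  · exact C_equiv hC.base (QuotientGroup.quotientKerEquivRange Θ)
      (hC.base.of_injective _ _ Θ.range.subtype Subtype.val_injective (C_gl hC hL))
  · refine C_ab hM _ ?_
    intro x hx y hy
    rw [Pool.Agent.R941.FJ.mem_sup_normal] at hx hy
    obtain ⟨a, ha, b, ⟨k, hb⟩, rfl⟩ := hx
    obtain ⟨a', ha', b', ⟨k', hb'⟩, rfl⟩ := hy
    have hb1 : g ^ k = b := hb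
    have hb2 : g ^ k' = b' := hb'
    have h1 : b * b' = b' * b := by
      rw [← hb1, ← hb2, ← zpow_add, ← zpow_add, add_comm]
    calc a * b * (a' * b') = a * (b * a') * b' := by simp only [mul_assoc]
      _ = a * (a' * b) * b' := by rw [hcen a' ha' b]
      _ = a * a' * (b * b') := by simp only [mul_assoc]
      _ = a' * a * (b' * b) := by rw [hcen a ha a', h1]
      _ = a' * (a * b') * b := by simp only [mul_assoc]
      _ = a' * (b' * a) * b := by rw [hcen a ha b']
      _ = a' * b' * (a * b) := by simp only [mul_assoc]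

/-- **linear groups** -/
theorem lin_cen (hC : ClosedE C) (hM : ∀ (G : Type) [Group G], derivedSeries G 2 = ⊥ → C G)
    (hL : ∀ n : ℕ, C (Matrix.GeneralLinearGroup (Fin n) F)) {n : ℕ} {A : Type} [Group A]
    (ρ : A →* Matrix.GeneralLinearGroup (Fin n) F) (hρ : Function.Injective ρ) : Cen C A := by
  refine ⟨hC.base.of_injective _ _ ρ hρ (hL n), fun z hz => ?_⟩
  obtain ⟨Z, hZ⟩ : ∃ Z : Subgroup A, Z = Subgroup.centralizer {z} := ⟨_, rfl⟩
  rw [← hZ]
  have hzZ : z ∈ Z := by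
    rw [hZ, Subgroup.mem_centralizer_singleton_iff]
  obtain ⟨z', hz'⟩ : ∃ z' : Z, z' = ⟨z, hzZ⟩ := ⟨_, rfl⟩
  have hzz : (z' : A) = z := by rw [hz']
  have hcz : ∀ g : Z, z' * g = g * z' := by
    rintro ⟨g, hg⟩
    rw [hZ, Subgroup.mem_centralizer_singleton_iff] at hg
    apply Subtype.ext
    show (z' : A) * g = g * z'
    rw [hzz, hg]
  have hn := central_normal z' hcz
  have hq : C (Z ⧸ Subgroup.zpowers z') :=
    lin_quo hC hM hL (ρ.comp Z.subtype) (hρ.comp Z.subtype_injective) z' hcz hn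
  refine ⟨Z ⧸ Subgroup.zpowers z', inferInstance, QuotientGroup.mk' _, hq, fun x => ?_⟩
  have h1 : QuotientGroup.mk' (Subgroup.zpowers z') x = 1 ↔ x ∈ Subgroup.zpowers z' :=
    QuotientGroup.eq_one_iff x
  rw [h1]
  constructor
  · rintro ⟨k, hk⟩
    refine ⟨k, ?_⟩
    have : z' ^ k = x := hk
    rw [← this]
    show z ^ k = ((z' ^ k : Z) : A)
    rw [Subgroup.coe_zpow, hzz]
  · rintro ⟨k, hk⟩
    refine ⟨k, Subtype.ext ?_⟩
    show ((z' ^ k : Z) : A) = x
    rw [Subgroup.coe_zpow, hzz]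
    exact hk

end Pool.Agent.U74.BC
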