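import Pool.Agent.U74.BC.Base
import Pool.Agent.helper444_cyc.Gen

/-!
# Actions with a central element that acts trivially
-/

set_option autoImplicit false

namespace Pool.Agent.U74.BC

open SimpleGraph Subgroup
open Pool.Agent.Y110.FJ
open Pool.Agent.R941.FJ (C_equiv C_le C_cyc)
open Pool.Agent.N509.TX (AcylF finedge fg_subtree STree of_fg of_fg_mem C_stab)
open Pool.Agent.N431.CE (Es mem_Es Es_comm Es_smul)
open Pool.Agent.helper444_cyc (index_of_vc)

variable {C : ∀ (G : Type) [Group G], Prop}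

theorem inf_zp {E : Type} [Group E] {z : E} (hz : ¬ IsOfFinOrder z) : Infinite (Subgroup.zpowers z) := by
  rw [← not_finite_iff_infinite]
  intro h
  exact hz (finite_zpowers.1 h)

theorem vc_index {E : Type} [Group E] (h : VCyc E) {z : E} (hz : ¬ IsOfFinOrder z) :
    (Subgroup.zpowers z).index ≠ 0 := by
  obtain ⟨c, hc⟩ := h
  exact index_of_vc hc (inf_zp hz)

/-- in a subgroup -/
theorem vc_relIndex {G : Type} [Group G] {E : Subgroup G} (h : VCyc E) {z : G} (hz : z ∈ E)
    (hzo : ¬ IsOfFinOrder z) : (Subgroup.zpowers z).relIndex E ≠ 0 := by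
  have h1 : ¬ IsOfFinOrder (⟨z, hz⟩ : E) := by
    rwa [← Function.Injective.isOfFinOrder_iff (f := E.subtype) E.subtype_injective]
  have h2 := vc_index h h1
  have h3 : Subgroup.zpowers (⟨z, hz⟩ : E) = (Subgroup.zpowers z).subgroupOf E := by
    ext x
    rw [Subgroup.mem_subgroupOf]
    constructor
    · rintro ⟨k, hk⟩
      exact ⟨k, congrArg Subtype.val hk⟩
    · rintro ⟨k, hk⟩
      exact ⟨k, Subtype.ext hk⟩
  rw [h3] at h2
  exact h2

/-- finite subgroups of virtually cyclic groups are bounded -/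
theorem fin_bound {E : Type} [Group E] (h : VCyc E) :
    ∃ N : ℕ, ∀ S : Subgroup E, Finite S → Nat.card S ≤ N := by
  obtain ⟨c, hc⟩ := h
  by_cases hco : IsOfFinOrder c
  · have h1 : Finite (Subgroup.zpowers c) := (finite_zpowers.2 hco).to_subtype
    have h2 : Finite E := by
      have h3 : Finite (E ⧸ Subgroup.zpowers c) := Subgroup.index_ne_zero_iff_finite.1 hc
      exact Finite.of_subgroup_quotient (Subgroup.zpowers c)
    refine ⟨Nat.card E, fun S _ => ?_⟩
    exact Nat.card_le_card_of_injective _ S.subtype_injective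
  · have h3 : Finite (E ⧸ Subgroup.zpowers c) := Subgroup.index_ne_zero_iff_finite.1 hc
    refine ⟨Nat.card (E ⧸ Subgroup.zpowers c), fun S hS => ?_⟩
    refine Nat.card_le_card_of_injective (fun s : S => ((s : E) : E ⧸ Subgroup.zpowers c)) ?_
    intro s t hst
    have h4 : (s : E)⁻¹ * (t : E) ∈ Subgroup.zpowers c := QuotientGroup.eq.1 hst
    obtain ⟨k, hk⟩ := h4
    have h5 : IsOfFinOrder ((s⁻¹ * t : S)) := isOfFinOrder_of_finite _
    have h6 : IsOfFinOrder ((s : E)⁻¹ * (t : E)) := by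
      have := (Function.Injective.isOfFinOrder_iff (f := S.subtype) S.subtype_injective).2 h5
      simpa using this
    have hk' : c ^ k = (s : E)⁻¹ * (t : E) := hk
    rw [← hk'] at h6
    have h7 : k = 0 := by
      by_contra hk0
      rw [isOfFinOrder_iff_pow_eq_one] at h6
      obtain ⟨m, hm, hm1⟩ := h6
      rw [← zpow_natCast, ← zpow_mul] at hm1
      have h9 : k * (m : ℤ) = 0 := by
        apply injective_zpow_iff_not_isOfFinOrder.2 hco
        show c ^ (k * (m : ℤ)) = c ^ (0 : ℤ)
        rw [hm1, zpow_zero]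
      rcases mul_eq_zero.1 h9 with h10 | h10
      · exact hk0 h10
      · omega
    rw [h7, zpow_zero] at hk'
    have h8 : (s : E) = t := by
      rw [eq_comm, inv_mul_eq_one] at hk'
      exact hk'
    exact Subtype.ext h8

theorem finite_map_of {G Q : Type} [Group G] [Group Q] (φ : G →* Q) {z : G} (hz : φ z = 1)
    (K : Subgroup G) (h : (Subgroup.zpowers z).relIndex K ≠ 0) : Finite (K.map φ) := by
  have h1 : Finite (K ⧸ (Subgroup.zpowers z).subgroupOf K) := Subgroup.index_ne_zero_iff_finite.1 h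
  let f : K ⧸ (Subgroup.zpowers z).subgroupOf K → K.map φ := fun q =>
    Quotient.liftOn' q (fun k => (⟨φ k, k, k.2, rfl⟩ : K.map φ)) (by
      intro a b hab
      rw [QuotientGroup.leftRel_apply, Subgroup.mem_subgroupOf] at hab
      obtain ⟨k, hk⟩ := hab
      have hk' : z ^ k = (a : G)⁻¹ * (b : G) := hk
      apply Subtype.ext
      show φ a = φ b
      have h2 : φ ((a : G)⁻¹ * (b : G)) = 1 := by rw [← hk', map_zpow, hz, one_zpow]
      rw [map_mul, map_inv, inv_mul_eq_one] at h2
      exact h2)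
  refine Finite.of_surjective f ?_
  rintro ⟨_, k, hk, rfl⟩
  exact ⟨((⟨k, hk⟩ : K) : K ⧸ (Subgroup.zpowers z).subgroupOf K), rfl⟩

/-- homomorphisms with equal kernels -/
theorem emb_of_ker (hC : ClosedE C) {K L P : Type} [Group K] [Group L] [Group P] (φ : K →* L)
    (hφ : Function.Surjective φ) (f : K →* P) (h : ∀ x, φ x = 1 ↔ f x = 1) (hP : C P) : C L := by
  have hker : φ.ker ≤ f.ker := fun x hx => (h x).1 hx
  refine hC.base.of_injective _ P (φ.liftOfSurjective hφ ⟨f, hker⟩) ?_ hP
  rw [injective_iff_map_eq_one]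
  intro a ha
  obtain ⟨x, rfl⟩ := hφ a
  have h1 : φ.liftOfSurjective hφ ⟨f, hker⟩ (φ x) = f x :=
    MonoidHom.liftOfRightInverse_comp_apply φ _ _ ⟨f, hker⟩ x
  rw [h1] at ha
  exact (h x).2 ha

section

variable {G V : Type} [Group G] [MulAction G V] {T : SimpleGraph V}

/-- the quotient by a central element which acts trivially: finitely generated groups -/
theorem quo_fg (hC : ClosedE C) (hA : AcylF C) (hfg : Group.FG G) (hT : T.IsTree)
    (hact : ∀ (g : G) (u v : V), T.Adj u v → T.Adj (g • u) (g • v))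
    (z : G) (hzo : ¬ IsOfFinOrder z) (hn : (Subgroup.zpowers z).Normal)
    (hV0 : ∀ v : V, z • v = v) (hE : ∀ u v, T.Adj u v → VCyc (Es G u v))
    (hV : ∀ v : V, Qz C (MulAction.stabilizer G v) z) : C (G ⧸ Subgroup.zpowers z) := by
  classical
  obtain ⟨v0⟩ := hT.connected.nonempty
  obtain ⟨W, _, T', ι, Φ, hS, ⟨w, hw⟩, hΦ, hΦ'⟩ := fg_subtree hT hact hfg v0
  have hzW : ∀ w : W, z • w = w := fun w => hS.fix.2 (hV0 _)
  let ρ : G ⧸ Subgroup.zpowers z →* Equiv.Perm W :=
    QuotientGroup.lift _ (MulAction.toPermHom G W) (by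
      rintro _ ⟨k, rfl⟩
      have h1 : MulAction.toPermHom G W z = 1 := by
        ext w
        exact hzW w
      show MulAction.toPermHom G W (z ^ k) = 1
      rw [map_zpow, h1, one_zpow])
  let _ : MulAction (G ⧸ Subgroup.zpowers z) W := MulAction.compHom W ρ
  have hsm : ∀ (g : G) (w : W), ((g : G ⧸ Subgroup.zpowers z)) • w = g • w := fun _ _ => rfl
  have hfg' : Group.FG (G ⧸ Subgroup.zpowers z) := by
    have := hfg
    infer_instance
  obtain ⟨π, hπ⟩ : ∃ π : G →* G ⧸ Subgroup.zpowers z, π = QuotientGroup.mk' (Subgroup.zpowers z) :=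
    ⟨_, rfl⟩
  have hπz : π z = 1 := by
    rw [hπ]
    exact (QuotientGroup.eq_one_iff z).2 (Subgroup.mem_zpowers z)
  have hzE : ∀ u v : V, z ∈ Es G u v := fun u v => ⟨hV0 u, hV0 v⟩
  have hfin : ∀ e ∈ Φ, Finite ((Es G e.1 e.2).map π) := fun e he =>
    finite_map_of π hπz _ (vc_relIndex (hE _ _ (hΦ e he)) (hzE _ _) hzo)
  obtain ⟨m, hm0⟩ : ∃ m : V × V → ℕ, ∀ e, m e = Nat.card ((Es G e.1 e.2).map π) :=
    ⟨_, fun _ => rfl⟩
  refine finedge hC hA hfg' hS.tree ?_ (∑ e ∈ Φ, m e) ?_ ?_
  · intro q u v h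
    obtain ⟨g, rfl⟩ := QuotientGroup.mk_surjective q
    exact hS.act g u v h
  · intro u v huv F hF
    obtain ⟨h, hh⟩ := hΦ' u v huv
    have key : ∀ e ∈ Φ, ({h • ι u, h • ι v} : Set V) = {e.1, e.2} →
        F.card ≤ m e := by
      intro e he hset
      rw [hm0]
      have := hfin e he
      have hm : ∀ q ∈ F, π h * q * (π h)⁻¹ ∈ (Es G e.1 e.2).map π := by
        intro q hq
        obtain ⟨g, rfl⟩ := QuotientGroup.mk_surjective q
        obtain ⟨h1, h2⟩ := hF _ hq
        rw [hsm] at h1 h2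
        have h3 : g • ι u = ι u := hS.fix.1 h1
        have h4 : g • ι v = ι v := hS.fix.1 h2
        refine ⟨h * g * h⁻¹, ?_, by rw [map_mul, map_mul, map_inv, hπ]; rfl⟩
        have h5 : ∀ x ∈ ({h • ι u, h • ι v} : Set V), (h * g * h⁻¹) • x = x := by
          rintro x (rfl | rfl)
          · rw [mul_smul, mul_smul, inv_smul_smul, h3]
          · rw [mul_smul, mul_smul, inv_smul_smul, h4]
        rw [hset] at h5
        exact ⟨h5 _ (Or.inl rfl), h5 _ (Or.inr rfl)⟩
      let f : F → (Es G e.1 e.2).map π := fun q => ⟨π h * q * (π h)⁻¹, hm q q.2⟩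
      have hf : Function.Injective f := by
        intro a b hab
        have h6 := congrArg Subtype.val hab
        have h7 : π h * (a : G ⧸ Subgroup.zpowers z) * (π h)⁻¹ = π h * b * (π h)⁻¹ := h6
        exact Subtype.ext (mul_left_cancel (mul_right_cancel h7))
      have h8 := Nat.card_le_card_of_injective f hf
      simpa using h8
    have hle : ∀ e ∈ Φ, m e ≤ ∑ e ∈ Φ, m e := fun e he =>
      Finset.single_le_sum (f := m) (fun _ _ => Nat.zero_le _) he
    rcases hh with hh | hh
    · exact (key _ hh rfl).trans (hle _ hh)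
    · exact (key _ hh (Set.pair_comm _ _)).trans (hle _ hh)
  · intro w
    obtain ⟨P, _, f, hP, hf⟩ := hV (ι w)
    -- the stabilizer in the quotient embeds in `P`
    let φ : MulAction.stabilizer G (ι w) →* MulAction.stabilizer (G ⧸ Subgroup.zpowers z) w :=
      (π.comp (Subgroup.subtype _)).codRestrict _ (by
        rintro ⟨g, hg⟩
        show π g • w = w
        rw [hπ]
        exact hS.fix.2 hg)
    have hφs : Function.Surjective φ := by
      rintro ⟨q, hq⟩
      obtain ⟨g, rfl⟩ := QuotientGroup.mk_surjective q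
      have h1 : g • w = w := hq
      refine ⟨⟨g, hS.fix.1 h1⟩, Subtype.ext ?_⟩
      show π g = _
      rw [hπ]
      rfl
    have hπk : ∀ g : G, π g = 1 ↔ g ∈ Subgroup.zpowers z := by
      intro g
      rw [hπ]
      exact QuotientGroup.eq_one_iff g
    refine emb_of_ker hC φ hφs f (fun x => ?_) hP
    rw [hf x, ← hπk]
    exact ⟨fun h => congrArg Subtype.val h, fun h => Subtype.ext h⟩

end

end Pool.Agent.U74.BC
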