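import Pool.Agent.U74.BC.Int
import Pool.Agent.U74.BC.Quo

/-!
# Products and overgroups of finite index
-/

set_option autoImplicit false

namespace Pool.Agent.U74.BC

open Subgroup
open Pool.Agent.Y110.FJ
open Pool.Agent.R941.FJ (C_equiv C_le C_cyc)

variable {C : ∀ (G : Type) [Group G], Prop}

/-- the product of a subgroup and an infinite cyclic subgroup which commutes with it -/
theorem C_sup_comm (hC : ClosedE C) {G : Type} [Group G] (N : Subgroup G) (g : G) (hN : C N)
    (hc : ∀ x ∈ N, g * x = x * g) (hg : ∀ n : ℕ, 0 < n → g ^ n ∉ N) :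
    C ↥(N ⊔ Subgroup.zpowers g) := by
  have comm : ∀ (m : N) (n : Subgroup.zpowers g), Commute (N.subtype m) ((Subgroup.zpowers g).subtype n) := by
    rintro ⟨x, hx⟩ ⟨_, k, rfl⟩
    have h1 : Commute x g := (hc x hx).symm
    exact h1.zpow_right k
  have hinj : Function.Injective (MonoidHom.noncommCoprod N.subtype (Subgroup.zpowers g).subtype comm) := by
    rw [MonoidHom.noncommCoprod_injective]
    refine ⟨N.subtype_injective, (Subgroup.zpowers g).subtype_injective, ?_⟩
    rw [Subgroup.range_subtype, Subgroup.range_subtype, Subgroup.disjoint_def]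
    rintro x hx ⟨k, hk⟩
    have hk' : g ^ k = x := hk
    rcases Int.natAbs_eq k with h1 | h1
    · by_cases h0 : k.natAbs = 0
      · rw [← hk', h1, h0]
        simp
      · exfalso
        apply hg k.natAbs (Nat.pos_of_ne_zero h0)
        rw [← zpow_natCast, ← h1, hk']
        exact hx
    · by_cases h0 : k.natAbs = 0
      · rw [← hk', h1, h0]
        simp
      · exfalso
        apply hg k.natAbs (Nat.pos_of_ne_zero h0)
        rw [← zpow_natCast, ← inv_mem_iff, ← zpow_neg, ← h1, hk']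
        exact hx
  have h1 : C (N × Subgroup.zpowers g) := hC.base.prod _ _ hN (C_cyc hC.base g)
  have h2 : (MonoidHom.noncommCoprod N.subtype (Subgroup.zpowers g).subtype comm).range =
      N ⊔ Subgroup.zpowers g := by
    rw [MonoidHom.noncommCoprod_range, Subgroup.range_subtype, Subgroup.range_subtype]
  rw [← h2]
  exact C_equiv hC.base (MonoidHom.ofInjective hinj).symm h1

theorem z_cen {G : Type} [Group G] (z : G) (x : Subgroup.centralizer {z}) :
    (x : G) * z = z * x := Subgroup.mem_centralizer_singleton_iff.1 x.2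

/-- `centralizer z` modulo `z` -/
theorem Qz.of_quo {G : Type} [Group G] {z : G} (z0 : Subgroup.centralizer {z}) (hz0 : (z0 : G) = z)
    (hn : (Subgroup.zpowers z0).Normal) (h : C (Subgroup.centralizer {z} ⧸ Subgroup.zpowers z0)) :
    Qz C (Subgroup.centralizer {z}) z := by
  refine ⟨_, _, QuotientGroup.mk' _, h, fun x => ?_⟩
  have hk : ∀ k : ℤ, ((z0 ^ k : Subgroup.centralizer {z}) : G) = z ^ k := fun k => by
    rw [Subgroup.coe_zpow, hz0]
  rw [QuotientGroup.mk'_apply, QuotientGroup.eq_one_iff]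
  constructor
  · rintro ⟨k, h1⟩
    exact ⟨k, (hk k).symm.trans (congrArg Subtype.val h1)⟩
  · rintro ⟨k, h1⟩
    exact ⟨k, Subtype.ext ((hk k).trans h1)⟩

theorem cen_normal {G : Type} [Group G] {z : G} (z0 : Subgroup.centralizer {z}) (hz0 : (z0 : G) = z) :
    (Subgroup.zpowers z0).Normal := by
  refine central_normal _ fun g => ?_
  apply Subtype.ext
  show (z0 : G) * g = g * z0
  rw [hz0]
  exact (z_cen z g).symm

/-- centralizers in products -/
theorem cen_prod_aux (hC : ClosedE C) {A B : Type} [Group A] [Group B] (a : A) (b : B)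
    (ha : ¬ IsOfFinOrder a) (hA : Qz C (Subgroup.centralizer {a}) a) (hB : C B) :
    Qz C (Subgroup.centralizer {(a, b)}) (a, b) := by
  obtain ⟨z0, hz0⟩ : ∃ z0 : Subgroup.centralizer {(a, b)},
    z0 = ⟨(a, b), Subgroup.mem_centralizer_singleton_iff.2 rfl⟩ := ⟨_, rfl⟩
  have hn := cen_normal z0 (by rw [hz0])
  refine Qz.of_quo z0 (by rw [hz0]) hn ?_
  obtain ⟨Pa, _, f, hPa, hf⟩ := hA
  have hfst : ∀ x : Subgroup.centralizer {(a, b)}, x.1.1 * a = a * x.1.1 := fun x =>
    congrArg Prod.fst (z_cen (a, b) x)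
  have hsnd : ∀ x : Subgroup.centralizer {(a, b)}, x.1.2 * b = b * x.1.2 := fun x =>
    congrArg Prod.snd (z_cen (a, b) x)
  let r : Subgroup.centralizer {(a, b)} →* Subgroup.centralizer {a} :=
    ((MonoidHom.fst A B).comp (Subgroup.subtype _)).codRestrict _ fun x =>
      Subgroup.mem_centralizer_singleton_iff.2 (hfst x)
  let ψ : Subgroup.centralizer {(a, b)} →* Pa := f.comp r
  have hψ : ∀ x : Subgroup.centralizer {(a, b)}, ψ x = 1 ↔ x.1.1 ∈ Subgroup.zpowers a := fun x => hf (r x)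
  have hψ0 : Subgroup.zpowers z0 ≤ ψ.ker := by
    rw [Subgroup.zpowers_le, MonoidHom.mem_ker, hψ, hz0]
    exact Subgroup.mem_zpowers a
  let π : Subgroup.centralizer {(a, b)} ⧸ Subgroup.zpowers z0 →* Pa := QuotientGroup.lift _ ψ hψ0
  have hπ : ∀ x : Subgroup.centralizer {(a, b)}, π (QuotientGroup.mk x) = ψ x := fun x => rfl
  -- the second factor
  let j0 : Subgroup.centralizer {b} →* Subgroup.centralizer {(a, b)} :=
    ((MonoidHom.inr A B).comp (Subgroup.subtype _)).codRestrict _ fun y => by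
      rw [Subgroup.mem_centralizer_singleton_iff]
      refine Prod.ext ?_ ?_
      · show 1 * a = a * 1
        rw [one_mul, mul_one]
      · exact z_cen b y
  have hj0 : ∀ y : Subgroup.centralizer {b}, ((j0 y : Subgroup.centralizer {(a, b)}) : A × B) = (1, (y : B)) :=
    fun y => rfl
  let j : Subgroup.centralizer {b} →* Subgroup.centralizer {(a, b)} ⧸ Subgroup.zpowers z0 :=
    (QuotientGroup.mk' _).comp j0
  have hzk : ∀ k : ℤ, ((z0 ^ k : Subgroup.centralizer {(a, b)}) : A × B) = (a ^ k, b ^ k) := by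
    intro k
    rw [Subgroup.coe_zpow, hz0]
    rfl
  have hjinj : Function.Injective j := by
    rw [injective_iff_map_eq_one]
    intro y hy
    have h1 : (QuotientGroup.mk (j0 y) : Subgroup.centralizer {(a, b)} ⧸ Subgroup.zpowers z0) = 1 := hy
    rw [QuotientGroup.eq_one_iff] at h1
    obtain ⟨k, hk⟩ := h1
    have hk' : z0 ^ k = j0 y := hk
    have h2 : (a ^ k, b ^ k) = ((1 : A), (y : B)) := by
      rw [← hzk, hk', hj0]
    have h3 : a ^ k = 1 := congrArg Prod.fst h2
    have h4 : b ^ k = y := congrArg Prod.snd h2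
    have h5 : k = 0 := by
      by_contra h
      have := zpow_inf ha h
      rw [h3] at this
      exact this IsOfFinOrder.one
    rw [h5, zpow_zero] at h4
    exact Subtype.ext h4.symm
  have hker : π.ker ≤ j.range := by
    intro q hq
    obtain ⟨x, rfl⟩ := QuotientGroup.mk_surjective q
    rw [MonoidHom.mem_ker, hπ, hψ] at hq
    obtain ⟨k, hk⟩ := hq
    have hk' : a ^ k = x.1.1 := hk
    have hb1 : Commute x.1.2 b := hsnd x
    refine ⟨⟨x.1.2 * (b ^ k)⁻¹, ?_⟩, ?_⟩
    · rw [Subgroup.mem_centralizer_singleton_iff]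
      have h1 : Commute (b ^ k)⁻¹ b := ((Commute.refl b).zpow_left k).inv_left
      exact (hb1.mul_left h1).eq
    · show (QuotientGroup.mk (j0 _) : Subgroup.centralizer {(a, b)} ⧸ Subgroup.zpowers z0) = _
      rw [eq_comm, QuotientGroup.eq]
      refine ⟨-k, Subtype.ext ?_⟩
      show ((z0 ^ (-k) : Subgroup.centralizer {(a, b)}) : A × B) = _
      rw [hzk]
      refine Prod.ext ?_ ?_
      · show a ^ (-k) = x.1.1⁻¹ * 1
        rw [mul_one, ← hk', zpow_neg]
      · show b ^ (-k) = x.1.2⁻¹ * (x.1.2 * (b ^ k)⁻¹)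
        rw [inv_mul_cancel_left, zpow_neg]
  have hCj : C j.range := C_equiv hC.base (MonoidHom.ofInjective hjinj).symm
    (hC.base.of_injective _ B (Subgroup.subtype _) (Subgroup.subtype_injective _) hB)
  have hCk : C π.ker := C_le hC.base hker hCj
  refine Pool.Agent.Y529.FJ.t_ext C hC _ π.ker hCk
    (hC.base.of_injective _ _ (QuotientGroup.kerLift π) (QuotientGroup.kerLift_injective π) hPa) ?_
  intro g hg
  obtain ⟨x, rfl⟩ := QuotientGroup.mk_surjective g
  have hx1 : (x.1.1, (1 : B)) ∈ Subgroup.centralizer {(a, b)} := by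
    rw [Subgroup.mem_centralizer_singleton_iff]
    refine Prod.ext (hfst x) ?_
    show 1 * b = b * 1
    rw [one_mul, mul_one]
  obtain ⟨g', hg'⟩ : ∃ g' : Subgroup.centralizer {(a, b)} ⧸ Subgroup.zpowers z0,
    g' = QuotientGroup.mk ⟨(x.1.1, 1), hx1⟩ := ⟨_, rfl⟩
  have hgg : (QuotientGroup.mk x : Subgroup.centralizer {(a, b)} ⧸ Subgroup.zpowers z0) =
      g' * j ⟨x.1.2, Subgroup.mem_centralizer_singleton_iff.2 (hsnd x)⟩ := by
    rw [hg']
    show _ = (QuotientGroup.mk (⟨(x.1.1, 1), hx1⟩ * j0 _) :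
      Subgroup.centralizer {(a, b)} ⧸ Subgroup.zpowers z0)
    congr 1
    apply Subtype.ext
    refine Prod.ext ?_ ?_
    · show x.1.1 = x.1.1 * 1
      rw [mul_one]
    · show x.1.2 = 1 * x.1.2
      rw [one_mul]
  have hjk : ∀ y, j y ∈ π.ker := by
    intro y
    rw [MonoidHom.mem_ker]
    show ψ (j0 y) = 1
    rw [hψ]
    exact one_mem _
  have hsup : π.ker ⊔ Subgroup.zpowers (QuotientGroup.mk x) ≤ π.ker ⊔ Subgroup.zpowers g' := by
    refine sup_le le_sup_left ?_
    rw [Subgroup.zpowers_le, hgg]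
    exact mul_mem (Subgroup.mem_sup_right (Subgroup.mem_zpowers _)) (Subgroup.mem_sup_left (hjk _))
  refine C_le hC.base hsup (C_sup_comm hC _ g' hCk ?_ ?_)
  · intro q hq
    obtain ⟨y, rfl⟩ := hker hq
    rw [hg']
    show (QuotientGroup.mk (⟨(x.1.1, 1), hx1⟩ * j0 y) :
      Subgroup.centralizer {(a, b)} ⧸ Subgroup.zpowers z0) = QuotientGroup.mk (j0 y * ⟨(x.1.1, 1), hx1⟩)
    congr 1
    apply Subtype.ext
    refine Prod.ext ?_ ?_
    · show x.1.1 * 1 = 1 * x.1.1
      rw [mul_one, one_mul]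
    · show 1 * (y : B) = y * 1
      rw [mul_one, one_mul]
  · intro n hn0 hmem
    apply hg n hn0
    rw [MonoidHom.mem_ker, map_pow] at hmem ⊢
    rw [hgg, map_mul, (hjk _ : π (j _) = 1), mul_one]
    exact hmem

/-- products -/
theorem Cen.prod (hC : ClosedE C) {A B : Type} [Group A] [Group B] (hA : Cen C A) (hB : Cen C B) :
    Cen C (A × B) := by
  refine ⟨hC.base.prod _ _ hA.1 hB.1, ?_⟩
  rintro ⟨a, b⟩ hz
  by_cases ha : IsOfFinOrder a
  · have hb : ¬ IsOfFinOrder b := fun hb => hz (by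
      rw [isOfFinOrder_iff_pow_eq_one] at ha hb ⊢
      obtain ⟨n, hn, h1⟩ := ha
      obtain ⟨m, hm, h2⟩ := hb
      refine ⟨n * m, Nat.mul_pos hn hm, ?_⟩
      rw [Prod.pow_mk, pow_mul, h1, one_pow, mul_comm, pow_mul, h2, one_pow]
      rfl)
    refine Qz.comap (K' := Subgroup.centralizer {(b, a)}) (MulEquiv.prodComm : A × B ≃* B × A).toMonoidHom
      (MulEquiv.prodComm : A × B ≃* B × A).injective ?_ (cen_prod_aux hC b a hb (hB.2 b hb) hA.1)
    intro x hx
    rw [Subgroup.mem_centralizer_singleton_iff] at hx ⊢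
    exact congrArg (fun y : A × B => (y.2, y.1)) hx
  · exact cen_prod_aux hC a b ha (hA.2 a ha) hB.1

/-- overgroups of finite index -/
theorem Cen.finiteIndex (hC : ClosedE C) {G : Type} [Group G] (H : Subgroup G) (hH : H.index ≠ 0)
    (h : Cen C H) : Cen C G := by
  refine ⟨hC.base.finiteIndex G H ⟨hH⟩ h.1, fun z hz => ?_⟩
  obtain ⟨z0, hz0⟩ : ∃ z0 : Subgroup.centralizer {z},
    z0 = ⟨z, Subgroup.mem_centralizer_singleton_iff.2 rfl⟩ := ⟨_, rfl⟩
  have hn := cen_normal z0 (by rw [hz0])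
  refine Qz.of_quo z0 (by rw [hz0]) hn ?_
  -- a generator of `H ∩ ⟨z⟩`
  obtain ⟨w, hwz, hwH, hw⟩ : ∃ w ∈ Subgroup.zpowers z, w ∈ H ∧
      ∀ x ∈ Subgroup.zpowers z, x ∈ H → x ∈ Subgroup.zpowers w := by
    obtain ⟨⟨w, hw1⟩, hw2⟩ := IsCyclic.exists_generator (α := H.subgroupOf (Subgroup.zpowers z))
    refine ⟨w, w.2, hw1, fun x hx hxH => ?_⟩
    obtain ⟨k, hk⟩ := hw2 ⟨⟨x, hx⟩, hxH⟩
    refine ⟨k, ?_⟩
    exact congrArg (fun y : H.subgroupOf (Subgroup.zpowers z) => ((y : Subgroup.zpowers z) : G)) hk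
  have hwo : ¬ IsOfFinOrder w := by
    intro hwo
    obtain ⟨i, hi, -, hi2⟩ := Subgroup.exists_pow_mem_of_index_ne_zero hH z
    have h1 := hw (z ^ i) ⟨i, zpow_natCast z i⟩ hi2
    have h2 : IsOfFinOrder (z ^ i) := by
      obtain ⟨k, hk⟩ := h1
      have hk' : w ^ k = z ^ i := hk
      rw [← hk']
      exact hwo.zpow
    rw [isOfFinOrder_pow] at h2
    rcases h2 with h2 | h2
    · exact hz h2
    · omega
  have hcw : ∀ x : G, x * z = z * x → x * w = w * x := by
    intro x hx
    obtain ⟨k, hk⟩ := hwz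
    have hk' : z ^ k = w := hk
    rw [← hk']
    exact (show Commute x z from hx).zpow_right k
  obtain ⟨P, _, f, hP, hf⟩ := h.2 ⟨w, hwH⟩ (by
    rw [← Function.Injective.isOfFinOrder_iff (f := H.subtype) H.subtype_injective]
    exact hwo)
  obtain ⟨K, hK⟩ : ∃ K : Subgroup (Subgroup.centralizer {z}), K = H.subgroupOf (Subgroup.centralizer {z}) :=
    ⟨_, rfl⟩
  have hKi : K.index ≠ 0 := by
    rw [hK]
    have : H.FiniteIndex := ⟨hH⟩
    exact (inferInstance : (H.subgroupOf (Subgroup.centralizer {z})).FiniteIndex).index_ne_zero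
  have hKH : ∀ x : K, ((x : Subgroup.centralizer {z}) : G) ∈ H := by
    rintro ⟨x, hx⟩
    rw [hK] at hx
    exact hx
  let s : K →* Subgroup.centralizer {(⟨w, hwH⟩ : H)} :=
    ((((Subgroup.centralizer {z}).subtype.comp K.subtype).codRestrict H hKH).codRestrict _) fun x => by
      rw [Subgroup.mem_centralizer_singleton_iff]
      apply Subtype.ext
      exact hcw _ (z_cen z x)
  obtain ⟨mk, hmk⟩ : ∃ mk : Subgroup.centralizer {z} →* Subgroup.centralizer {z} ⧸ Subgroup.zpowers z0,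
    mk = QuotientGroup.mk' _ := ⟨_, rfl⟩
  have hCK : C (K.map mk) := by
    refine emb_of_ker hC (mk.subgroupMap K) (mk.subgroupMap_surjective K) (f.comp s) ?_ hP
    intro x
    have h1 : (f.comp s) x = 1 ↔ ((s x : H)) ∈ Subgroup.zpowers (⟨w, hwH⟩ : H) := hf (s x)
    rw [h1]
    have h2 : (mk.subgroupMap K) x = 1 ↔ ((x : Subgroup.centralizer {z}) : G) ∈ Subgroup.zpowers z := by
      have h3 : (mk.subgroupMap K) x = 1 ↔ mk x = 1 := by
        constructor
        · intro h
          exact congrArg Subtype.val h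
        · intro h
          exact Subtype.ext h
      rw [h3, hmk, QuotientGroup.mk'_apply, QuotientGroup.eq_one_iff]
      constructor
      · rintro ⟨k, hk⟩
        refine ⟨k, ?_⟩
        have := congrArg Subtype.val hk
        rw [hz0] at this
        exact this
      · rintro ⟨k, hk⟩
        refine ⟨k, Subtype.ext ?_⟩
        rw [hz0]
        exact hk
    rw [h2]
    constructor
    · intro hx
      obtain ⟨k, hk⟩ := hw _ hx (hKH x)
      exact ⟨k, Subtype.ext hk⟩
    · rintro ⟨k, hk⟩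
      have hk' : w ^ k = ((x : Subgroup.centralizer {z}) : G) := congrArg Subtype.val hk
      rw [← hk']
      exact zpow_mem hwz k
  refine hC.base.finiteIndex _ (K.map mk) ⟨?_⟩ hCK
  intro h0
  apply hKi
  have hs : Function.Surjective mk := by
    rw [hmk]
    exact QuotientGroup.mk'_surjective _
  have h1 := Subgroup.index_map_dvd (H := K) hs
  rw [h0] at h1
  exact Nat.eq_zero_of_zero_dvd h1

theorem Balanced.prod {A B : Type} [Group A] [Group B] (hA : Balanced A) (hB : Balanced B) :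
    Balanced (A × B) := by
  rintro ⟨a, b⟩ ⟨g, g'⟩ hz p q hp hq hg
  by_cases ha : IsOfFinOrder a
  · have hb : ¬ IsOfFinOrder b := fun hb => hz (by
      rw [isOfFinOrder_iff_pow_eq_one] at ha hb ⊢
      obtain ⟨n, hn, h1⟩ := ha
      obtain ⟨m, hm, h2⟩ := hb
      refine ⟨n * m, Nat.mul_pos hn hm, ?_⟩
      rw [Prod.pow_mk, pow_mul, h1, one_pow, mul_comm, pow_mul, h2, one_pow]
      rfl)
    exact hB b g' hb p q hp hq (congrArg Prod.snd hg)
  · exact hA a g ha p q hp hq (congrArg Prod.fst hg)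

theorem Balanced.finiteIndex {G : Type} [Group G] (H : Subgroup G) (hH : H.index ≠ 0)
    (h : Balanced H) : Balanced G := by
  intro z g hz p q hp hq hg
  obtain ⟨i, hi, -, hi2⟩ := Subgroup.exists_pow_mem_of_index_ne_zero hH z
  obtain ⟨j, hj, -, hj2⟩ := Subgroup.exists_pow_mem_of_index_ne_zero hH g
  have key : ∀ n : ℕ, g ^ n * z ^ (p ^ n) * (g ^ n)⁻¹ = z ^ (q ^ n) := by
    intro n
    induction n with
    | zero => simp
    | succ n ih =>
      have h1 : g ^ (n + 1) * z ^ (p ^ (n + 1)) * (g ^ (n + 1))⁻¹ =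
          g * (g ^ n * z ^ (p ^ n) * (g ^ n)⁻¹) ^ p * g⁻¹ := by
        rw [conj_zpow, ← zpow_mul, ← pow_succ, pow_succ']
        group
      rw [h1, ih, ← zpow_mul, mul_comm, zpow_mul, ← conj_zpow, hg, ← zpow_mul, ← pow_succ']
  have h2 := h ⟨z ^ i, hi2⟩ ⟨g ^ j, hj2⟩ (by
    rw [← Function.Injective.isOfFinOrder_iff (f := H.subtype) H.subtype_injective]
    show ¬ IsOfFinOrder (z ^ i)
    rw [isOfFinOrder_pow]
    push Not
    exact ⟨hz, by omega⟩) (p ^ j) (q ^ j) (pow_ne_zero _ hp) (pow_ne_zero _ hq) (by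
    apply Subtype.ext
    push_cast
    rw [← zpow_natCast z i, ← zpow_mul, ← zpow_mul, mul_comm (i : ℤ), mul_comm (i : ℤ), zpow_mul,
      zpow_mul, ← conj_zpow, key])
  rw [abs_pow, abs_pow] at h2
  exact (pow_left_inj₀ (abs_nonneg p) (abs_nonneg q) (by omega)).1 h2

end Pool.Agent.U74.BC
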