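import Pool.Agent.U74.BC.Am
import Pool.Agent.U74.BC.Prd
import Pool.Agent.U74.BC.Lin
import Pool.Agent.U385.RT.Am

/-!
# Amalgams and hierarchies
-/

set_option autoImplicit false

namespace Pool.Agent.U74.BC

open SimpleGraph Subgroup
open Pool.Agent.Y110.FJ
open Pool.Agent.N509.TX (AcylF)
open Pool.Agent.N431.CE (Es mem_Es Es_comm Es_smul)
open Pool.Agent.Helper705_SA (IsAmalgam cosetGraph cosetGraph_isTree stab_coset)
open Pool.Agent.R941.FJ (C_equiv C_le C_cyc)

variable {C : ∀ (G : Type) [Group G], Prop}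

theorem Cen.equiv (hC : ClosedE C) (A B : Type) [Group A] [Group B] (e : A ≃* B) (h : Cen C A) :
    Cen C B := Cen.of_injective hC e.symm.toMonoidHom e.symm.injective h

theorem Balanced.equiv (A B : Type) [Group A] [Group B] (e : A ≃* B) (h : Balanced A) :
    Balanced B := Balanced.of_injective e.symm.toMonoidHom e.symm.injective h

theorem es_vcyc {G V : Type} [Group G] [MulAction G V] (g : G) {u v : V} (h : VCyc (Es G u v)) :
    VCyc (Es G (g • u) (g • v)) := by
  let f : Es G (g • u) (g • v) →* Es G u v :=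
    ((MulAut.conj g⁻¹).toMonoidHom.comp (Es G (g • u) (g • v)).subtype).codRestrict _ fun x => by
      have h1 : (x : G) • g • u = g • u := x.2.1
      have h2 : (x : G) • g • v = g • v := x.2.2
      refine ⟨?_, ?_⟩
      · show (g⁻¹ * (x : G) * g⁻¹⁻¹) • u = u
        rw [inv_inv, mul_smul, mul_smul, h1, inv_smul_smul]
      · show (g⁻¹ * (x : G) * g⁻¹⁻¹) • v = v
        rw [inv_inv, mul_smul, mul_smul, h2, inv_smul_smul]
  refine VCyc.of_injective f ?_ h
  intro a b hab
  have : (g⁻¹ * (a : G) * g⁻¹⁻¹) = (g⁻¹ * (b : G) * g⁻¹⁻¹) := congrArg Subtype.val hab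
  apply Subtype.ext
  simpa using this

/-- edges are fundamental domains -/
theorem FD.edges {G V : Type} [Group G] [MulAction G V] {T : SimpleGraph V} {v0 u0 : V}
    (h : FD G T v0 u0) (hE : VCyc (Es G v0 u0)) (u v : V) (huv : T.Adj u v) : VCyc (Es G u v) := by
  obtain ⟨g, ⟨rfl, rfl⟩ | ⟨rfl, rfl⟩⟩ := h.tr _ _ huv
  · exact es_vcyc g hE
  · rw [Es_comm]
    exact es_vcyc g hE

theorem FD.result {G V : Type} [Group G] [MulAction G V] {T : SimpleGraph V} {v0 u0 : V}
    (hC : ClosedE C) (hM : ∀ (G : Type) [Group G], derivedSeries G 2 = ⊥ → C G) (hA : AcylF C)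
    (h : FD G T v0 u0) (hE : VCyc (Es G v0 u0))
    (hcv : Cen C (MulAction.stabilizer G v0)) (hcu : Cen C (MulAction.stabilizer G u0))
    (hbv : Balanced (MulAction.stabilizer G v0)) (hbu : Balanced (MulAction.stabilizer G u0)) :
    Cen C G ∧ Balanced G := by
  have hE' := h.edges hE
  have hb := h.all Balanced.equiv hbv hbu
  have hc := h.all (Cen.equiv hC) hcv hcu
  refine ⟨?_, h.balanced hE' hb⟩
  refine Act.cen_all hC hM hA (T := T) ?_ h.noinv
  exact ⟨h.tree, h.act, hE', hc, h.bal_edges hE' hb⟩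

theorem am_fd {G : Type} [Group G] (A B : Subgroup G) (h : IsAmalgam A B) :
    FD G (cosetGraph A B) (Sum.inl (QuotientGroup.mk 1)) (Sum.inr (QuotientGroup.mk 1)) where
  tree := cosetGraph_isTree A B h
  act := Pool.Agent.U385.RT.coset_act A B
  adj := ⟨1, Or.inl ⟨rfl, rfl⟩⟩
  tr := by
    rintro x y ⟨k, ⟨rfl, rfl⟩ | ⟨rfl, rfl⟩⟩
    · refine ⟨k, Or.inl ⟨?_, ?_⟩⟩
      · show (Sum.inl (QuotientGroup.mk (k * 1)) : (G ⧸ A) ⊕ (G ⧸ B)) = _
        rw [mul_one]
      · show (Sum.inr (QuotientGroup.mk (k * 1)) : (G ⧸ A) ⊕ (G ⧸ B)) = _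
        rw [mul_one]
    · refine ⟨k, Or.inr ⟨?_, ?_⟩⟩
      · show (Sum.inl (QuotientGroup.mk (k * 1)) : (G ⧸ A) ⊕ (G ⧸ B)) = _
        rw [mul_one]
      · show (Sum.inr (QuotientGroup.mk (k * 1)) : (G ⧸ A) ⊕ (G ⧸ B)) = _
        rw [mul_one]
  ne g hg := by
    have : (Sum.inl (QuotientGroup.mk (g * 1)) : (G ⧸ A) ⊕ (G ⧸ B)) = Sum.inr (QuotientGroup.mk 1) := hg
    exact absurd this (by simp)

theorem am_stab_l {G : Type} [Group G] (A B : Subgroup G) :
    MulAction.stabilizer G (Sum.inl (QuotientGroup.mk 1) : (G ⧸ A) ⊕ (G ⧸ B)) = A := by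
  ext x
  rw [MulAction.mem_stabilizer_iff]
  have h1 : x • (Sum.inl (QuotientGroup.mk 1) : (G ⧸ A) ⊕ (G ⧸ B)) =
    Sum.inl (QuotientGroup.mk (x * 1)) := rfl
  rw [h1, mul_one, Sum.inl_injective.eq_iff, eq_comm, QuotientGroup.eq, inv_one, one_mul]

theorem am_stab_r {G : Type} [Group G] (A B : Subgroup G) :
    MulAction.stabilizer G (Sum.inr (QuotientGroup.mk 1) : (G ⧸ A) ⊕ (G ⧸ B)) = B := by
  ext x
  rw [MulAction.mem_stabilizer_iff]
  have h1 : x • (Sum.inr (QuotientGroup.mk 1) : (G ⧸ A) ⊕ (G ⧸ B)) =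
    Sum.inr (QuotientGroup.mk (x * 1)) := rfl
  rw [h1, mul_one, Sum.inr_injective.eq_iff, eq_comm, QuotientGroup.eq, inv_one, one_mul]

/-- amalgams -/
theorem am_result (hC : ClosedE C) (hM : ∀ (G : Type) [Group G], derivedSeries G 2 = ⊥ → C G)
    (hA : AcylF C) {G : Type} [Group G] (A B : Subgroup G) (h : IsAmalgam A B)
    (hE : VCyc (A ⊓ B : Subgroup G)) (hcA : Cen C A) (hcB : Cen C B) (hbA : Balanced A)
    (hbB : Balanced B) : Cen C G ∧ Balanced G := by
  refine (am_fd A B h).result hC hM hA ?_ ?_ ?_ ?_ ?_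
  · show VCyc (MulAction.stabilizer G _ ⊓ MulAction.stabilizer G _ : Subgroup G)
    rw [am_stab_l, am_stab_r]
    exact hE
  · rw [am_stab_l]
    exact hcA
  · rw [am_stab_r]
    exact hcB
  · rw [am_stab_l]
    exact hbA
  · rw [am_stab_r]
    exact hbB

/-- The smallest class of groups which contains `GL_n(ℤ)` for all `n` and is closed under subgroups,
overgroups of finite index, direct products of two groups, amalgams over virtually cyclic subgroups, and
which contains the balanced groups with an action on a tree without inversions, with virtually cyclic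
edge stabilizers and with vertex stabilizers in the class. -/
inductive Hier : ∀ (G : Type) [Group G], Prop
  | gl (n : ℕ) : Hier (Matrix.GeneralLinearGroup (Fin n) ℤ)
  | sub {G H : Type} [Group G] [Group H] (f : G →* H) : Function.Injective f → Hier H → Hier G
  | fin {G : Type} [Group G] (H : Subgroup G) : H.index ≠ 0 → Hier H → Hier G
  | prod {A B : Type} [Group A] [Group B] : Hier A → Hier B → Hier (A × B)
  | amalgam {G : Type} [Group G] (A B : Subgroup G) : IsAmalgam A B → VCyc (A ⊓ B : Subgroup G) →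
      Hier A → Hier B → Hier G
  | tree {G V : Type} [Group G] [MulAction G V] (T : SimpleGraph V) : T.IsTree →
      (∀ (g : G) (u v : V), T.Adj u v → T.Adj (g • u) (g • v)) →
      (∀ (g : G) (u v : V), T.Adj u v → ¬ (g • u = v ∧ g • v = u)) →
      (∀ u v, T.Adj u v → VCyc (Es G u v)) → Balanced G →
      (∀ v : V, Hier (MulAction.stabilizer G v)) → Hier G

theorem hier_result (hC : ClosedE C) (hM : ∀ (G : Type) [Group G], derivedSeries G 2 = ⊥ → C G)
    (hA : AcylF C) (hL : ∀ n : ℕ, C (Matrix.GeneralLinearGroup (Fin n) ℚ)) {G : Type} [Group G]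
    (h : Hier G) : Cen C G ∧ Balanced G := by
  induction h with
  | gl n =>
    refine ⟨?_, bal_int n⟩
    refine lin_cen hC hM hL (Matrix.GeneralLinearGroup.map (Int.castRingHom ℚ)) ?_
    intro a b hab
    apply Units.ext
    ext i j
    have h1 := congrArg (fun x : Matrix.GeneralLinearGroup (Fin n) ℚ => (x : Matrix (Fin n) (Fin n) ℚ) i j) hab
    simpa using h1
  | sub f hf _ ih => exact ⟨Cen.of_injective hC f hf ih.1, Balanced.of_injective f hf ih.2⟩
  | fin H hH _ ih => exact ⟨Cen.finiteIndex hC H hH ih.1, Balanced.finiteIndex H hH ih.2⟩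
  | prod _ _ ih1 ih2 => exact ⟨Cen.prod hC ih1.1 ih2.1, Balanced.prod ih1.2 ih2.2⟩
  | amalgam A B h hE _ _ ih1 ih2 => exact am_result hC hM hA A B h hE ih1.1 ih2.1 ih1.2 ih2.2
  | @tree G V _ _ T hT hact hinv hE hb _ ih =>
    refine ⟨Act.cen_all hC hM hA (T := T) ⟨hT, hact, hE, fun v => (ih v).1, ?_⟩ hinv, hb⟩
    intro u v _ c _ hco g p q hp hq hg
    exact hb c g hco p q hp hq hg

end Pool.Agent.U74.BC
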