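import Mathlib

/-!
# Balanced groups: groups of integral matrices
-/

set_option autoImplicit false

namespace Pool.Agent.U74.BC

/-- elements `c` of infinite order are not conjugate to each other in different powers -/
def Balanced (A : Type) [Group A] : Prop :=
  ∀ c g : A, ¬ IsOfFinOrder c → ∀ p q : ℤ, p ≠ 0 → q ≠ 0 → g * c ^ p * g⁻¹ = c ^ q → |p| = |q|

theorem Balanced.of_injective {A B : Type} [Group A] [Group B] (φ : A →* B)
    (hφ : Function.Injective φ) (h : Balanced B) : Balanced A := by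
  intro c g hc p q hp hq hg
  refine h (φ c) (φ g) ?_ p q hp hq ?_
  · rwa [Function.Injective.isOfFinOrder_iff hφ]
  · rw [← map_zpow, ← map_zpow, ← map_inv, ← map_mul, ← map_mul, hg]

/-- powers of elements of infinite order -/
theorem zpow_inf {A : Type} [Group A] {c : A} (hc : ¬ IsOfFinOrder c) {k : ℤ} (hk : k ≠ 0) :
    ¬ IsOfFinOrder (c ^ k) := by
  intro h
  rw [isOfFinOrder_iff_pow_eq_one] at h
  obtain ⟨m, hm, hm1⟩ := h
  rw [← zpow_natCast, ← zpow_mul] at hm1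
  have h9 : k * (m : ℤ) = 0 := by
    apply injective_zpow_iff_not_isOfFinOrder.2 hc
    show c ^ (k * (m : ℤ)) = c ^ (0 : ℤ)
    rw [hm1, zpow_zero]
  rcases mul_eq_zero.1 h9 with h10 | h10
  · exact hk h10
  · omega

/-- it is enough to consider a prime which divides `q` and not `p` -/
theorem bal_of_prime {A : Type} [Group A]
    (h : ∀ c g : A, ¬ IsOfFinOrder c → ∀ (l : ℕ) (p q : ℤ), l.Prime → ¬ (l : ℤ) ∣ p → (l : ℤ) ∣ q →
      g * c ^ p * g⁻¹ ≠ c ^ q) : Balanced A := by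
  intro c g hc p q hp hq hg
  obtain ⟨d, p', q', hd, hpq, h1, h2⟩ := Int.exists_gcd_one' (m := p) (n := q)
    (by
      have := Int.gcd_pos_of_ne_zero_left q hp
      exact this)
  have hd0 : (d : ℤ) ≠ 0 := by positivity
  have hp' : p' ≠ 0 := by
    rintro rfl
    exact hp (by rw [h1, zero_mul])
  have hq' : q' ≠ 0 := by
    rintro rfl
    exact hq (by rw [h2, zero_mul])
  have hcd := zpow_inf hc hd0
  have hg' : g * (c ^ (d : ℤ)) ^ p' * g⁻¹ = (c ^ (d : ℤ)) ^ q' := by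
    rw [← zpow_mul, ← zpow_mul, mul_comm, mul_comm (d : ℤ) q', ← h1, ← h2]
    exact hg
  have key : ∀ (a b : ℤ), Int.gcd a b = 1 → ∀ x : A, x * (c ^ (d : ℤ)) ^ a * x⁻¹ = (c ^ (d : ℤ)) ^ b →
      b.natAbs = 1 := by
    intro a b hab x hx
    by_contra hb
    obtain ⟨l, hl, hlb⟩ := Nat.exists_prime_and_dvd hb
    have hlb' : (l : ℤ) ∣ b := Int.natCast_dvd.2 hlb
    refine h _ x hcd l a b hl ?_ hlb' hx
    intro hla
    have h3 : l ∣ Int.gcd a b := Int.dvd_gcd hla hlb'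
    rw [hab] at h3
    exact hl.one_lt.ne' (Nat.dvd_one.1 h3)
  have k1 := key p' q' hpq g hg'
  have k2 := key q' p' (by rw [Int.gcd_comm]; exact hpq) g⁻¹ (by
    rw [← hg']
    group)
  have h3 : |p'| = |q'| := by
    rw [Int.abs_eq_natAbs, Int.abs_eq_natAbs, k1, k2]
  rw [h1, h2, abs_mul, abs_mul, h3]

open Polynomial in
/-- matrices congruent to one -/
theorem pow_congr_one {R : Type} [Ring R] (l k : ℕ) (Y : R) :
    ∃ Z : R, (1 + (l : R) * Y) ^ l ^ k = 1 + ((l ^ (k + 1) : ℕ) : R) * Z := by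
  have h1 : ((l : ℕ) : ℤ[X]) ∣ (1 + (l : ℤ[X]) * X) - 1 := ⟨X, by ring⟩
  obtain ⟨c, hc⟩ := dvd_sub_pow_of_dvd_sub h1 k
  refine ⟨aeval Y c, ?_⟩
  have h2 := congrArg (aeval Y) hc
  simp only [map_sub, map_pow, map_add, map_one, map_mul, map_natCast, aeval_X, one_pow] at h2
  rw [sub_eq_iff_eq_add'] at h2
  rw [h2]
  push_cast
  rfl

/-- **groups of integral matrices are balanced** -/
theorem bal_int (n : ℕ) : Balanced (Matrix.GeneralLinearGroup (Fin n) ℤ) := by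
  classical
  refine bal_of_prime fun y g hy l p q hl hp hq hg => ?_
  -- reduction
  let red : ∀ m : ℕ, Matrix.GeneralLinearGroup (Fin n) ℤ →* Matrix.GeneralLinearGroup (Fin n) (ZMod m) :=
    fun m => Matrix.GeneralLinearGroup.map (Int.castRingHom (ZMod m))
  have hred : ∀ m x i j, (red m x : Matrix (Fin n) (Fin n) (ZMod m)) i j =
    (((x : Matrix (Fin n) (Fin n) ℤ) i j : ℤ) : ZMod m) := fun _ _ _ _ => rfl
  have hl0 : NeZero l := ⟨hl.ne_zero⟩
  obtain ⟨N, hN⟩ : ∃ N : ℕ, N = Nat.card (Matrix.GeneralLinearGroup (Fin n) (ZMod l)) := ⟨_, rfl⟩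
  have hNpos : 0 < N := by
    rw [hN]
    exact Nat.card_pos
  obtain ⟨x, hx⟩ : ∃ x, x = y ^ N := ⟨_, rfl⟩
  have hxo : ¬ IsOfFinOrder x := by
    rw [hx, isOfFinOrder_pow]
    push Not
    exact ⟨hy, hNpos.ne'⟩
  have hx1 : red l x = 1 := by
    rw [hx, map_pow, hN]
    exact pow_card_eq_one'
  have hgx : g * x ^ p * g⁻¹ = x ^ q := by
    have e1 : x ^ p = (y ^ p) ^ N := by
      rw [hx, ← zpow_natCast, ← zpow_natCast, ← zpow_mul, ← zpow_mul, mul_comm]
    have e2 : x ^ q = (y ^ q) ^ N := by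
      rw [hx, ← zpow_natCast, ← zpow_natCast, ← zpow_mul, ← zpow_mul, mul_comm]
    rw [e1, e2, ← hg, conj_pow]
  -- `x = 1 + l Y`
  obtain ⟨Y, hY⟩ : ∃ Y : Matrix (Fin n) (Fin n) ℤ, (x : Matrix (Fin n) (Fin n) ℤ) = 1 + (l : Matrix (Fin n) (Fin n) ℤ) * Y := by
    have h1 : ∀ i j, ∃ a : ℤ, (x : Matrix (Fin n) (Fin n) ℤ) i j - (1 : Matrix (Fin n) (Fin n) ℤ) i j = l * a := by
      intro i j
      have h2 := congrArg (fun u : Matrix.GeneralLinearGroup (Fin n) (ZMod l) =>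
        (u : Matrix (Fin n) (Fin n) (ZMod l)) i j) hx1
      have h3 : (((x : Matrix (Fin n) (Fin n) ℤ) i j : ℤ) : ZMod l) =
          (1 : Matrix (Fin n) (Fin n) (ZMod l)) i j := h2
      have h4 : (((x : Matrix (Fin n) (Fin n) ℤ) i j - (1 : Matrix (Fin n) (Fin n) ℤ) i j : ℤ) : ZMod l) = 0 := by
        rw [Int.cast_sub, h3, Matrix.one_apply, Matrix.one_apply]
        split_ifs <;> simp
      exact (ZMod.intCast_zmod_eq_zero_iff_dvd _ _).1 h4
    choose Y hY using h1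
    refine ⟨Matrix.of Y, ?_⟩
    ext i j
    have h5 : ((l : Matrix (Fin n) (Fin n) ℤ) * Matrix.of Y) i j = l * Y i j := by
      rw [← nsmul_eq_mul]
      simp
    rw [Matrix.add_apply, h5, ← hY]
    ring
  -- a modulus for which `x` is not trivial
  obtain ⟨i, j, hij⟩ : ∃ i j, (x : Matrix (Fin n) (Fin n) ℤ) i j ≠ (1 : Matrix (Fin n) (Fin n) ℤ) i j := by
    by_contra hcon
    push Not at hcon
    apply hxo
    have : x = 1 := by
      apply Units.ext
      ext i j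
      exact hcon i j
    rw [this]
    exact IsOfFinOrder.one
  obtain ⟨k, hk⟩ : ∃ k : ℕ, ¬ ((l ^ k : ℕ) : ℤ) ∣
      (x : Matrix (Fin n) (Fin n) ℤ) i j - (1 : Matrix (Fin n) (Fin n) ℤ) i j := by
    obtain ⟨a, ha⟩ : ∃ a, a = (x : Matrix (Fin n) (Fin n) ℤ) i j - (1 : Matrix (Fin n) (Fin n) ℤ) i j :=
      ⟨_, rfl⟩
    rw [← ha]
    have ha0 : a ≠ 0 := by
      rw [ha]
      exact sub_ne_zero.2 hij
    refine ⟨a.natAbs, fun h => ?_⟩
    have h1 := Int.le_of_dvd (Int.natAbs_pos.2 ha0 |> fun h => by positivity) ((Int.dvd_natAbs).2 h)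
    have h2 : a.natAbs < l ^ a.natAbs := Nat.lt_pow_self hl.one_lt
    omega
  obtain ⟨u, hu⟩ : ∃ u, u = red (l ^ k) x := ⟨_, rfl⟩
  have hu1 : u ≠ 1 := by
    intro h
    apply hk
    rw [hu] at h
    have h2 := congrArg (fun u : Matrix.GeneralLinearGroup (Fin n) (ZMod (l ^ k)) =>
      (u : Matrix (Fin n) (Fin n) (ZMod (l ^ k))) i j) h
    have h3 : (((x : Matrix (Fin n) (Fin n) ℤ) i j : ℤ) : ZMod (l ^ k)) =
        (1 : Matrix (Fin n) (Fin n) (ZMod (l ^ k))) i j := h2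
    rw [← ZMod.intCast_zmod_eq_zero_iff_dvd, Int.cast_sub, h3, Matrix.one_apply, Matrix.one_apply]
    split_ifs <;> simp
  have hul : u ^ l ^ k = 1 := by
    obtain ⟨Z, hZ⟩ := pow_congr_one l k Y
    rw [← hY] at hZ
    rw [hu, ← map_pow]
    apply Units.ext
    ext a b
    rw [hred, Units.val_pow_eq_pow_val, hZ]
    have h5 : (((l ^ (k + 1) : ℕ) : Matrix (Fin n) (Fin n) ℤ) * Z) a b = (l ^ (k + 1) : ℕ) * Z a b := by
      rw [← nsmul_eq_mul]
      simp
    rw [Matrix.add_apply, h5, Int.cast_add, Int.cast_mul, Int.cast_natCast, pow_succ, Nat.cast_mul,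
      ZMod.natCast_self, zero_mul, zero_mul, add_zero]
    rw [Units.val_one, Matrix.one_apply, Matrix.one_apply]
    split_ifs <;> simp
  -- the order of `u` is divisible by `l`
  have hdvd : orderOf u ∣ l ^ k := orderOf_dvd_of_pow_eq_one hul
  obtain ⟨e, he, heo⟩ := (Nat.dvd_prime_pow hl).1 hdvd
  have he0 : e ≠ 0 := by
    rintro rfl
    rw [pow_zero, orderOf_eq_one_iff] at heo
    exact hu1 heo
  obtain ⟨e', rfl⟩ := Nat.exists_eq_succ_of_ne_zero he0
  have hgu : red (l ^ k) g * u ^ p * (red (l ^ k) g)⁻¹ = u ^ q := by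
    rw [hu, ← map_zpow, ← map_zpow, ← map_inv, ← map_mul, ← map_mul, hgx]
  have h1 : (u ^ q) ^ l ^ e' = 1 := by
    obtain ⟨q', rfl⟩ := hq
    rw [← zpow_natCast, ← zpow_mul]
    have : ((l : ℤ) * q' * ((l ^ e' : ℕ) : ℤ)) = ((l ^ (e' + 1) : ℕ) : ℤ) * q' := by
      push_cast
      ring
    rw [this, zpow_mul, zpow_natCast, ← heo, pow_orderOf_eq_one, one_zpow]
  have h2 : (u ^ p) ^ l ^ e' = 1 := by
    rw [← hgu, conj_pow, conj_eq_one_iff] at h1
    exact h1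
  rw [← zpow_natCast, ← zpow_mul, ← orderOf_dvd_iff_zpow_eq_one, heo] at h2
  apply hp
  rw [Nat.succ_eq_add_one, pow_succ] at h2
  push_cast at h2
  rw [mul_comm p] at h2
  exact Int.dvd_of_mul_dvd_mul_left (by have := hl.pos; positivity) h2

end Pool.Agent.U74.BC
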