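import Pool.Agent.U74.BC.Hyp
import Pool.Agent.U74.BC.Int
import Pool.Agent.helper444_cyc.Sep

/-!
# Actions with an edge as a fundamental domain
-/

set_option autoImplicit false

namespace Pool.Agent.U74.BC

open SimpleGraph Subgroup
open Pool.Agent.Y110.FJ
open Pool.Agent.N509.TX (AcylF)
open Pool.Agent.N431.CE (Es mem_Es Es_comm Es_smul)
open Pool.Agent.Helper270.Tree (TreeAct IsAxis IsLine)

variable {C : ∀ (G : Type) [Group G], Prop}
variable {G V : Type} [Group G] [MulAction G V] {T : SimpleGraph V}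

/-- paths between fixed vertices are fixed -/
theorem fix_path (hT : T.IsTree) (hact : ∀ (g : G) (u v : V), T.Adj u v → T.Adj (g • u) (g • v))
    {z : G} {u v : V} (hu : z • u = u) (hv : z • v = v) (p : T.Walk u v) (hp : p.IsPath) :
    ∀ x ∈ p.support, z • x = x := by
  intro x hx
  let φ : T →g T := ⟨fun v => z • v, fun {a b} h => hact z a b h⟩
  have hinj : Function.Injective φ := MulAction.injective z
  have h1 : ((p.map φ).copy hu hv).IsPath := by
    rw [Walk.isPath_copy]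
    exact Walk.map_isPath_of_injective hinj hp
  have h2 : (p.map φ).copy hu hv = p := (hT.existsUnique_path u v).unique h1 hp
  have h3 : (p.map φ).support = p.support := by
    have := congrArg Walk.support h2
    rwa [Walk.support_copy] at this
  rw [Walk.support_map] at h3
  obtain ⟨i, hi, rfl⟩ := List.getElem_of_mem hx
  have h4 : (p.support.map φ)[i]'(by rw [List.length_map]; exact hi) = p.support[i] := by
    simp only [h3]
  rw [List.getElem_map] at h4
  exact h4

/-- the edge `v0`, `u0` is a fundamental domain -/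
structure FD (G : Type) {V : Type} [Group G] [MulAction G V] (T : SimpleGraph V) (v0 u0 : V) : Prop where
  tree : T.IsTree
  act : ∀ (g : G) (u v : V), T.Adj u v → T.Adj (g • u) (g • v)
  adj : T.Adj v0 u0
  tr : ∀ x y, T.Adj x y → ∃ g : G, (g • v0 = x ∧ g • u0 = y) ∨ (g • v0 = y ∧ g • u0 = x)
  ne : ∀ g : G, g • v0 ≠ u0

variable {v0 u0 : V}

theorem FD.no_adj (h : FD G T v0 u0) (g : G) (v : V) : ¬ T.Adj v (g • v) := by
  intro hv
  obtain ⟨x, ⟨h1, h2⟩ | ⟨h1, h2⟩⟩ := h.tr _ _ hv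
  · apply h.ne (x⁻¹ * g * x)
    rw [mul_smul, mul_smul, h1, ← h2, inv_smul_smul]
  · apply h.ne (x⁻¹ * g⁻¹ * x)
    rw [mul_smul, mul_smul, h1, inv_smul_smul, ← h2, inv_smul_smul]

theorem FD.noinv (h : FD G T v0 u0) (g : G) (u v : V) (huv : T.Adj u v) : ¬ (g • u = v ∧ g • v = u) := by
  rintro ⟨h1, -⟩
  apply h.no_adj g u
  rwa [h1]

theorem FD.turn (h : FD G T v0 u0) {v s t : V} (hs : T.Adj v s) (ht : T.Adj v t) :
    ∃ a : G, a • v = v ∧ a • s = t := by
  obtain ⟨x, hx⟩ := h.tr _ _ hs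
  obtain ⟨y, hy⟩ := h.tr _ _ ht
  rcases hx with ⟨h1, h2⟩ | ⟨h1, h2⟩ <;> rcases hy with ⟨h3, h4⟩ | ⟨h3, h4⟩
  · refine ⟨y * x⁻¹, ?_, ?_⟩
    · rw [mul_smul, ← h1, inv_smul_smul, h3, h1]
    · rw [mul_smul, ← h2, inv_smul_smul, h4]
  · exfalso
    apply h.ne (y⁻¹ * x)
    rw [mul_smul, h1, ← h4, inv_smul_smul]
  · exfalso
    apply h.ne (x⁻¹ * y)
    rw [mul_smul, h3, ← h2, inv_smul_smul]
  · refine ⟨y * x⁻¹, ?_, ?_⟩
    · rw [mul_smul, ← h2, inv_smul_smul, h4, h2]
    · rw [mul_smul, ← h1, inv_smul_smul, h3]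

theorem FD.vert (h : FD G T v0 u0) (x : V) : ∃ g : G, x = g • v0 ∨ x = g • u0 := by
  by_cases hx : x = v0
  · exact ⟨1, Or.inl (by rw [one_smul, hx])⟩
  · obtain ⟨p, hp, -⟩ := h.tree.existsUnique_path x v0
    cases p with
    | nil => exact absurd rfl hx
    | cons hadj p =>
      obtain ⟨g, ⟨h1, -⟩ | ⟨-, h1⟩⟩ := h.tr _ _ hadj
      · exact ⟨g, Or.inl h1.symm⟩
      · exact ⟨g, Or.inr h1.symm⟩

/-- properties of the vertex groups -/
theorem FD.all {P : ∀ (A : Type) [Group A], Prop}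
    (hP : ∀ (A B : Type) [Group A] [Group B] (_ : A ≃* B), P A → P B) (h : FD G T v0 u0)
    (hv : P (MulAction.stabilizer G v0)) (hu : P (MulAction.stabilizer G u0)) (x : V) :
    P (MulAction.stabilizer G x) := by
  obtain ⟨g, hg | hg⟩ := h.vert x
  · exact hP _ _ (MulAction.stabilizerEquivStabilizer hg) hv
  · exact hP _ _ (MulAction.stabilizerEquivStabilizer hg) hu

theorem bal_stab {v : V} (hb : Balanced (MulAction.stabilizer G v)) {x g : G} (hx : x • v = v)
    (hg : g • v = v) (hxo : ¬ IsOfFinOrder x) {p q : ℤ} (hp : p ≠ 0) (hq : q ≠ 0)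
    (h : g * x ^ p * g⁻¹ = x ^ q) : |p| = |q| := by
  refine hb ⟨x, hx⟩ ⟨g, hg⟩ ?_ p q hp hq ?_
  · rw [← Function.Injective.isOfFinOrder_iff (f := Subgroup.subtype _) (Subgroup.subtype_injective _)]
    exact hxo
  · apply Subtype.ext
    push_cast
    exact h

theorem FD.walk (h : FD G T v0 u0) (hE : ∀ u v, T.Adj u v → VCyc (Es G u v))
    (hb : ∀ v : V, Balanced (MulAction.stabilizer G v)) {v v' : V} (w : T.Walk v v') :
    ∀ (s s' : V) (x g : G) (p q : ℤ), T.Adj v s → T.Adj v' s' → x • v = v → x • s = s →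
      ¬ IsOfFinOrder x → p ≠ 0 → q ≠ 0 → g * x ^ p * g⁻¹ = x ^ q →
      ((g • v = v' ∧ g • s = s') ∨ (g • v = s' ∧ g • s = v')) →
      (∀ a ∈ w.support, x ^ q • a = a) → |p| = |q| := by
  induction w with
  | nil =>
    intro s s' x g p q hvs hvs' hxv hxs hxo hp hq hg hor _
    rcases hor with ⟨h1, -⟩ | ⟨h1, -⟩
    · exact bal_stab (hb _) hxv h1 hxo hp hq hg
    · exfalso
      apply h.no_adj g _
      rw [h1]
      exact hvs'
  | @cons v t v' hvt w ih =>
    intro s s' x g p q hvs hvs' hxv hxs hxo hp hq hg hor hsup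
    obtain ⟨a, hav, has⟩ := h.turn hvs hvt
    have hqv : x ^ q • v = v := hsup v (Walk.start_mem_support _)
    have hqt : x ^ q • t = t := hsup t (by
      rw [Walk.support_cons]
      exact List.mem_cons_of_mem _ (Walk.start_mem_support _))
    have ha'v : a⁻¹ • v = v := by rw [inv_smul_eq_iff, hav]
    have ha't : a⁻¹ • t = s := by rw [inv_smul_eq_iff, has]
    obtain ⟨y, hy⟩ : ∃ y, y = a * x * a⁻¹ := ⟨_, rfl⟩
    have hyv : y • v = v := by rw [hy, mul_smul, mul_smul, ha'v, hxv, hav]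
    have hyt : y • t = t := by rw [hy, mul_smul, mul_smul, ha't, hxs, has]
    have hyo : ¬ IsOfFinOrder y := by
      rw [hy]
      intro hfin
      apply hxo
      rw [isOfFinOrder_iff_pow_eq_one] at hfin ⊢
      obtain ⟨n, hn, hn1⟩ := hfin
      rw [conj_pow, conj_eq_one_iff] at hn1
      exact ⟨n, hn, hn1⟩
    have hyk : ∀ k : ℤ, y ^ k = a * x ^ k * a⁻¹ := fun k => by rw [hy, conj_zpow]
    obtain ⟨i, hi, -, hi2⟩ := Subgroup.exists_pow_mem_of_relIndex_ne_zero
      (vc_relIndex (hE _ _ hvt) (show y ∈ Es G v t from ⟨hyv, hyt⟩) hyo)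
      (show x ^ q ∈ Es G v t from ⟨hqv, hqt⟩)
    obtain ⟨j, hj⟩ := (Subgroup.mem_inf.mp hi2).1
    have hj' : y ^ j = x ^ (q * (i : ℤ)) := by
      rw [zpow_mul, zpow_natCast]
      exact hj
    have hi0 : (i : ℤ) ≠ 0 := by omega
    have hqi : q * (i : ℤ) ≠ 0 := mul_ne_zero hq hi0
    have hj0 : j ≠ 0 := by
      rintro rfl
      rw [zpow_zero] at hj'
      have := zpow_inf hxo hqi
      rw [← hj'] at this
      exact this IsOfFinOrder.one
    have h1 : |j| = |q * (i : ℤ)| := by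
      refine bal_stab (hb v) hxv hav hxo hj0 hqi ?_
      rw [← hyk, hj']
    have h2 : |p * (i : ℤ)| = |j| := by
      refine ih v s' y (g * a⁻¹) (p * i) j hvt.symm hvs' hyt hyv hyo (mul_ne_zero hp hi0) hj0 ?_ ?_ ?_
      · have h3 : (g * a⁻¹) * y ^ (p * (i : ℤ)) * (g * a⁻¹)⁻¹ = g * x ^ (p * (i : ℤ)) * g⁻¹ := by
          rw [hyk]
          group
        rw [h3, hj', zpow_mul, zpow_mul, ← hg, conj_zpow]
      · rw [mul_smul, mul_smul, ha't, ha'v]
        rcases hor with ⟨h4, h5⟩ | ⟨h4, h5⟩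
        · exact Or.inr ⟨h5, h4⟩
        · exact Or.inl ⟨h5, h4⟩
      · intro b hb'
        rw [hj', zpow_mul]
        have h6 : x ^ q ∈ MulAction.stabilizer G b := hsup b (by
          rw [Walk.support_cons]
          exact List.mem_cons_of_mem _ hb')
        exact zpow_mem h6 _
    rw [abs_mul] at h2
    rw [h1, abs_mul] at h2
    exact mul_right_cancel₀ (abs_ne_zero.2 hi0) h2

/-- the edge groups are balanced if the vertex groups are -/
theorem FD.bal_edges (h : FD G T v0 u0) (hE : ∀ u v, T.Adj u v → VCyc (Es G u v))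
    (hb : ∀ v : V, Balanced (MulAction.stabilizer G v)) (u v : V) (huv : T.Adj u v) (c : G)
    (hc : c ∈ Es G u v) (hco : ¬ IsOfFinOrder c) (g : G) (p q : ℤ) (hp : p ≠ 0) (hq : q ≠ 0)
    (hg : g * c ^ p * g⁻¹ = c ^ q) : |p| = |q| := by
  have hcu : c ∈ MulAction.stabilizer G u := hc.1
  have h1 : c ^ q • u = u := zpow_mem hcu q
  have h2 : c ^ q • (g • u) = g • u := by
    rw [← hg, mul_smul, mul_smul, inv_smul_smul]
    have : c ^ p • u = u := zpow_mem hcu p
    rw [this]
  obtain ⟨w, hw, -⟩ := h.tree.existsUnique_path u (g • u)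
  exact h.walk hE hb w v (g • v) c g p q huv (h.act g u v huv) hc.1 hc.2 hco hp hq hg
    (Or.inl ⟨rfl, rfl⟩) (fix_path h.tree h.act h1 h2 w hw)

/-- the displacement of the powers of a hyperbolic element -/
theorem disp (h : TreeAct G T) {z : G} {L : ℤ → V} {l : ℕ} (hax : IsAxis T z L l) (q : ℤ) (x : V) :
    q.natAbs * l ≤ T.dist x (z ^ q • x) := by
  by_cases hq : q.natAbs = 0
  · rw [hq, zero_mul]
    exact Nat.zero_le _
  have hax' := Pool.Agent.helper444_cyc.IsAxis.zpow hax (k := q.natAbs) (Nat.pos_of_ne_zero hq)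
  obtain ⟨i, -, h2⟩ := h.proj_between hax' x
  have h3 : T.dist x (z ^ q.natAbs • x) = T.dist x (z ^ q • x) := by
    rcases Int.natAbs_eq q with h4 | h4
    · conv_rhs => rw [h4]
      rw [zpow_natCast]
    · conv_rhs => rw [h4]
      rw [zpow_neg, zpow_natCast, ← h.dist_smul (z ^ q.natAbs) x ((z ^ q.natAbs)⁻¹ • x),
        smul_inv_smul, dist_comm]
  rw [← h3, h2]
  omega

/-- **the group is balanced** -/
theorem FD.balanced (h : FD G T v0 u0) (hE : ∀ u v, T.Adj u v → VCyc (Es G u v))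
    (hb : ∀ v : V, Balanced (MulAction.stabilizer G v)) : Balanced G := by
  have hTA : TreeAct G T := ⟨h.tree, h.act, h.noinv⟩
  intro z g hz p q hp hq hg
  by_cases hfix : ∃ v : V, z • v = v
  · obtain ⟨v, hv⟩ := hfix
    have hzv : z ∈ MulAction.stabilizer G v := hv
    by_cases hk : ∃ (k : ℤ) (a b : V), k ≠ 0 ∧ T.Adj a b ∧ z ^ k ∈ Es G a b
    · obtain ⟨k, a, b, hk, hab, hzk⟩ := hk
      refine h.bal_edges hE hb a b hab (z ^ k) hzk (zpow_inf hz hk) g p q hp hq ?_
      rw [← zpow_mul, ← zpow_mul, mul_comm k p, mul_comm k q, zpow_mul, zpow_mul, ← hg, conj_zpow]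
    · have h1 : z ^ q • v = v := zpow_mem hzv q
      have h2 : z ^ q • (g • v) = g • v := by
        rw [← hg, mul_smul, mul_smul, inv_smul_smul]
        have : z ^ p • v = v := zpow_mem hzv p
        rw [this]
      have h3 : g • v = v := by
        by_contra hne
        obtain ⟨w, hw, -⟩ := h.tree.existsUnique_path v (g • v)
        have h4 := fix_path h.tree h.act h1 h2 w hw
        generalize g • v = v' at w h4 hne
        cases w with
        | nil => exact hne rfl
        | @cons _ t _ hvt w =>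
          apply hk
          refine ⟨q, v, t, hq, hvt, h1, ?_⟩
          exact h4 t (by
            rw [Walk.support_cons]
            exact List.mem_cons_of_mem _ (Walk.start_mem_support _))
      exact bal_stab (hb v) hv h3 hz hp hq hg
  · push Not at hfix
    obtain ⟨L, l, hax⟩ := hTA.exists_axis hfix
    have key : ∀ (a b : ℤ) (x : G), x * z ^ a * x⁻¹ = z ^ b → b.natAbs ≤ a.natAbs := by
      intro a b x hx
      have h1 := disp hTA hax b (x • L 0)
      rw [← hx, mul_smul, mul_smul, inv_smul_smul, hTA.dist_smul, hax.smul_zpow,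
        hax.line.dist hTA.isTree] at h1
      have h2 := hax.pos
      have h3 : (0 - (0 + a * (l : ℤ))).natAbs = a.natAbs * l := by
        rw [zero_add, zero_sub, Int.natAbs_neg, Int.natAbs_mul, Int.natAbs_natCast]
      rw [h3] at h1
      exact Nat.le_of_mul_le_mul_right h1 h2
    have k1 := key p q g hg
    have k2 := key q p g⁻¹ (by
      rw [← hg]
      group)
    rw [Int.abs_eq_natAbs, Int.abs_eq_natAbs, le_antisymm k2 k1]

end Pool.Agent.U74.BC
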