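import Pool.Agent.N431.CE.IsoF
import Pool.Agent.N509.TK.Fin
import Pool.Agent.Helper270.Tree

/-!
# Centralizer quotients in the Farrell–Jones class: basic facts
-/

set_option autoImplicit false

namespace Pool.Agent.U74.BC

open Subgroup
open Pool.Agent.Y110.FJ
open Pool.Agent.R941.FJ (C_equiv C_le C_cyc)

variable {C : ∀ (G : Type) [Group G], Prop}

/-- virtually cyclic groups -/
def VCyc (G : Type) [Group G] : Prop := ∃ c : G, (Subgroup.zpowers c).index ≠ 0

/-- `K ⧸ (K ∩ ⟨z⟩)` embeds in a group in the class -/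
def Qz (C : ∀ (G : Type) [Group G], Prop) {G : Type} [Group G] (K : Subgroup G) (z : G) : Prop :=
  ∃ (P : Type) (_ : Group P) (f : K →* P), C P ∧ ∀ x : K, f x = 1 ↔ (x : G) ∈ Subgroup.zpowers z

/-- the group is in the class, and so are the centralizers of the elements `z` of infinite order
modulo `⟨z⟩` -/
def Cen (C : ∀ (G : Type) [Group G], Prop) (A : Type) [Group A] : Prop :=
  C A ∧ ∀ z : A, ¬ IsOfFinOrder z → Qz C (Subgroup.centralizer {z}) z

theorem Qz.mono {G : Type} [Group G] {K K' : Subgroup G} {z : G} (h : K ≤ K') (hK : Qz C K' z) :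
    Qz C K z := by
  obtain ⟨P, _, f, hP, hf⟩ := hK
  exact ⟨P, _, f.comp (Subgroup.inclusion h), hP, fun x => hf (Subgroup.inclusion h x)⟩

/-- transport along injective homomorphisms -/
theorem Qz.comap {G H : Type} [Group G] [Group H] (φ : G →* H) (hφ : Function.Injective φ)
    {K : Subgroup G} {K' : Subgroup H} {z : G} (h : ∀ x ∈ K, φ x ∈ K') (hK : Qz C K' (φ z)) :
    Qz C K z := by
  obtain ⟨P, _, f, hP, hf⟩ := hK
  refine ⟨P, _, f.comp ((φ.comp K.subtype).codRestrict K' fun x => h x x.2), hP, fun x => ?_⟩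
  have h1 := hf (((φ.comp K.subtype).codRestrict K' fun x => h x x.2) x)
  have h2 : ((((φ.comp K.subtype).codRestrict K' fun x => h x x.2) x : K') : H) = φ (x : G) := rfl
  rw [h2] at h1
  have h3 : φ (x : G) ∈ Subgroup.zpowers (φ z) ↔ (x : G) ∈ Subgroup.zpowers z := by
    constructor
    · rintro ⟨k, hk⟩
      refine ⟨k, hφ ?_⟩
      simpa using hk
    · rintro ⟨k, hk⟩
      refine ⟨k, ?_⟩
      have : z ^ k = (x : G) := hk
      show φ z ^ k = φ x
      rw [← map_zpow, this]
  exact h1.trans h3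

theorem Cen.of_injective (hC : ClosedE C) {A B : Type} [Group A] [Group B] (φ : A →* B)
    (hφ : Function.Injective φ) (h : Cen C B) : Cen C A := by
  refine ⟨hC.base.of_injective _ _ φ hφ h.1, fun z hz => ?_⟩
  have hz' : ¬ IsOfFinOrder (φ z) := by
    rwa [Function.Injective.isOfFinOrder_iff hφ]
  refine Qz.comap φ hφ (fun x hx => ?_) (h.2 (φ z) hz')
  rw [Subgroup.mem_centralizer_singleton_iff] at hx ⊢
  rw [← map_mul, ← map_mul, hx]

/-- abelian groups -/
theorem C_ab (hM : ∀ (G : Type) [Group G], derivedSeries G 2 = ⊥ → C G) {G : Type} [Group G]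
    (A : Subgroup G) (hA : ∀ x ∈ A, ∀ y ∈ A, x * y = y * x) : C A := by
  refine hM A (Pool.Agent.N509.TK.metab (⊤ : Subgroup A) ?_ fun _ _ => Subgroup.mem_top _)
  rintro ⟨x, hx⟩ _ ⟨y, hy⟩ _
  exact Subtype.ext (hA x hx y hy)

/-- the subgroup generated by two commuting elements is abelian -/
theorem ab_sup {G : Type} [Group G] {z g : G} (h : z * g = g * z) :
    ∀ x ∈ Subgroup.zpowers z ⊔ Subgroup.zpowers g, ∀ y ∈ Subgroup.zpowers z ⊔ Subgroup.zpowers g,
      x * y = y * x := by
  have hle : Subgroup.zpowers z ⊔ Subgroup.zpowers g = Subgroup.closure {z, g} := by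
    rw [Subgroup.zpowers_eq_closure, Subgroup.zpowers_eq_closure, ← Subgroup.closure_union]
    rfl
  rw [hle]
  have hk : ∀ x ∈ ({z, g} : Set G), ∀ y ∈ ({z, g} : Set G), x * y = y * x := by
    rintro x (rfl | rfl) y (rfl | rfl)
    · rfl
    · exact h
    · exact h.symm
    · rfl
  have := Subgroup.isMulCommutative_closure hk
  intro x hx y hy
  have h1 := this.is_comm.comm ⟨x, hx⟩ ⟨y, hy⟩
  exact congrArg Subtype.val h1

/-- the quotient by a central element -/
theorem central_normal {G : Type} [Group G] (z : G) (hz : ∀ g, z * g = g * z) :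
    (Subgroup.zpowers z).Normal := by
  refine ⟨?_⟩
  rintro _ ⟨k, rfl⟩ g
  refine ⟨k, ?_⟩
  have h1 : Commute z g := hz g
  have h2 : Commute (z ^ k) g := h1.zpow_left k
  show z ^ k = g * z ^ k * g⁻¹
  rw [← h2.eq, mul_inv_cancel_right]

/-- central extensions by cyclic groups -/
theorem central_ext (hC : ClosedE C) (hM : ∀ (G : Type) [Group G], derivedSeries G 2 = ⊥ → C G)
    {G : Type} [Group G] (z : G) (hz : ∀ g, z * g = g * z) (hn : (Subgroup.zpowers z).Normal)
    (h : C (G ⧸ Subgroup.zpowers z)) : C G := by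
  refine Pool.Agent.Y529.FJ.t_ext C hC G (Subgroup.zpowers z) (C_cyc hC.base z) h fun g _ => ?_
  exact C_ab hM _ (ab_sup (hz g))

/-- virtually cyclic groups are in the class -/
theorem C_vcyc (hC : ClosedE C) {G : Type} [Group G] (h : VCyc G) : C G := by
  obtain ⟨c, hc⟩ := h
  exact hC.base.finiteIndex G (Subgroup.zpowers c) ⟨hc⟩ (C_cyc hC.base c)

theorem VCyc.of_injective {A B : Type} [Group A] [Group B] (φ : A →* B)
    (hφ : Function.Injective φ) (h : VCyc B) : VCyc A := by
  obtain ⟨c, hc⟩ := h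
  have h1 : ((Subgroup.zpowers c).comap φ).index ≠ 0 := by
    rw [Subgroup.index_comap]
    have : (Subgroup.zpowers c).FiniteIndex := ⟨hc⟩
    exact (inferInstance : ((Subgroup.zpowers c).subgroupOf φ.range).FiniteIndex).index_ne_zero
  have h2 : IsCyclic ((Subgroup.zpowers c).comap φ) := by
    let f : (Subgroup.zpowers c).comap φ →* Subgroup.zpowers c :=
      (φ.comp ((Subgroup.zpowers c).comap φ).subtype).codRestrict _ fun x => x.2
    refine isCyclic_of_injective f ?_
    intro x y hxy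
    exact Subtype.ext (hφ (congrArg Subtype.val hxy))
  obtain ⟨a, ha⟩ := h2.exists_generator
  refine ⟨(a : A), ?_⟩
  have h3 : Subgroup.zpowers (a : A) = (Subgroup.zpowers c).comap φ := by
    apply le_antisymm
    · rw [Subgroup.zpowers_le]
      exact a.2
    · intro x hx
      obtain ⟨k, hk⟩ := ha ⟨x, hx⟩
      refine ⟨k, ?_⟩
      exact congrArg Subtype.val hk
  rwa [h3]

theorem VCyc.of_surjective {A B : Type} [Group A] [Group B] (φ : A →* B)
    (hφ : Function.Surjective φ) (h : VCyc A) : VCyc B := by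
  obtain ⟨c, hc⟩ := h
  refine ⟨φ c, ?_⟩
  rw [← MonoidHom.map_zpowers]
  intro h0
  apply hc
  have h1 := Subgroup.index_map_dvd (H := Subgroup.zpowers c) hφ
  rw [h0] at h1
  exact Nat.eq_zero_of_zero_dvd h1

end Pool.Agent.U74.BC
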