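import Pool.Agent.U74.BC.Cyl

/-!
# Commensurators of balanced edge groups, and the theorem
-/

set_option autoImplicit false

namespace Pool.Agent.U74.BC

open SimpleGraph Subgroup
open scoped Pointwise
open Subgroup.Commensurable (commensurator)
open Pool.Agent.Y110.FJ
open Pool.Agent.R941.FJ (C_equiv C_le C_cyc)
open Pool.Agent.N509.TK
open Pool.Agent.N509.TX (AcylF finedge fg_subtree STree of_fg of_fg_mem C_stab C_edge)
open Pool.Agent.N431.CE (Es mem_Es Es_comm Es_smul cylF rf rf_LR Rf Rf_gen le_comm mem_comm_iff)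
open Pool.Agent.helper444_cyc (index_of_vc)

variable {C : ∀ (G : Type) [Group G], Prop}
variable {G V : Type} [Group G] [MulAction G V] {T : SimpleGraph V}

/-- an element of infinite order of an infinite virtually cyclic group -/
theorem exists_inf {E : Subgroup G} (h : VCyc E) (hinf : Infinite E) :
    ∃ c ∈ E, ¬ IsOfFinOrder c ∧ (Subgroup.zpowers c).relIndex E ≠ 0 := by
  obtain ⟨c, hc⟩ := h
  have hco : ¬ IsOfFinOrder c := by
    intro hco
    have h1 : Finite (Subgroup.zpowers c) := (finite_zpowers.2 hco).to_subtype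
    have h3 : Finite (E ⧸ Subgroup.zpowers c) := Subgroup.index_ne_zero_iff_finite.1 hc
    have : Finite E := Finite.of_subgroup_quotient (Subgroup.zpowers c)
    exact not_finite E
  have hco' : ¬ IsOfFinOrder (c : G) := by
    rwa [← Function.Injective.isOfFinOrder_iff (f := E.subtype) E.subtype_injective] at hco
  exact ⟨c, c.2, hco', vc_relIndex ⟨c, hc⟩ c.2 hco'⟩

/-- elements of the commensurator of `E` conjugate a power of `c` to a power of `c` -/
theorem comm_pow {E : Subgroup G} {c : G} (hcE : c ∈ E) (hco : ¬ IsOfFinOrder c)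
    (hc : (Subgroup.zpowers c).relIndex E ≠ 0) {g : G} (hg : g ∈ commensurator E) :
    ∃ p q : ℤ, 0 < p ∧ q ≠ 0 ∧ g * c ^ p * g⁻¹ = c ^ q := by
  have hg' : g⁻¹ ∈ commensurator E := inv_mem hg
  rw [Commensurable.commensurator_mem_iff] at hg'
  obtain ⟨m, hm, -, h2⟩ := Subgroup.exists_pow_mem_of_relIndex_ne_zero hg'.1 hcE
  have h3 := (Subgroup.mem_inf.mp h2).1
  rw [Subgroup.mem_pointwise_smul_iff_inv_smul_mem] at h3
  have h4 : g * c ^ m * g⁻¹ ∈ E := by simpa [ConjAct.smul_def] using h3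
  obtain ⟨n, hn, -, h5⟩ := Subgroup.exists_pow_mem_of_relIndex_ne_zero hc h4
  obtain ⟨q, hq⟩ := (Subgroup.mem_inf.mp h5).1
  have hq' : c ^ q = (g * c ^ m * g⁻¹) ^ n := hq
  rw [conj_pow, ← pow_mul] at hq'
  refine ⟨(m * n : ℕ), q, by exact_mod_cast Nat.mul_pos hm hn, ?_, ?_⟩
  · rintro rfl
    rw [zpow_zero] at hq'
    have h6 : c ^ (m * n) = 1 := by
      have := hq'.symm
      rwa [conj_eq_one_iff] at this
    exact hco (isOfFinOrder_iff_pow_eq_one.2 ⟨m * n, Nat.mul_pos hm hn, h6⟩)
  · rw [zpow_natCast]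
    exact hq'.symm

/-- the commensurators of infinite edge groups -/
theorem Act.comm (hC : ClosedE C) (hM : ∀ (G : Type) [Group G], derivedSeries G 2 = ⊥ → C G)
    (hA : AcylF C) (h : Act C G T) (v u : V) (huv : T.Adj v u) (hinf : Infinite (Es G v u)) :
    C (commensurator (Es G v u)) := by
  obtain ⟨c, hcE, hco, hc⟩ := exists_inf (h.vc v u huv) hinf
  obtain ⟨M, hMdef⟩ : ∃ M : Subgroup G, M = commensurator (Es G v u) := ⟨_, rfl⟩
  rw [← hMdef]
  have hcM : c ∈ M := by
    rw [hMdef]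
    exact le_comm _ hcE
  obtain ⟨d, hd⟩ : ∃ d : M, (d : G) = c := ⟨⟨c, hcM⟩, rfl⟩
  have hpm : ∀ g : M, ∃ p : ℕ, 0 < p ∧ (g * d ^ p * g⁻¹ = d ^ p ∨ g * d ^ p * g⁻¹ = (d ^ p)⁻¹) := by
    intro g
    have hg : (g : G) ∈ commensurator (Es G v u) := hMdef.le g.2
    obtain ⟨p, q, hp, hq, hpq⟩ := comm_pow hcE hco hc hg
    have h1 := h.bal v u huv c hcE hco g p q hp.ne' hq hpq
    obtain ⟨n, hn⟩ : ∃ n : ℕ, (n : ℤ) = p := ⟨p.toNat, Int.toNat_of_nonneg hp.le⟩
    refine ⟨n, by omega, ?_⟩
    rcases abs_eq_abs.1 h1 with h2 | h2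
    · left
      apply Subtype.ext
      push_cast
      rw [hd, ← zpow_natCast, hn, hpq, ← h2]
    · right
      apply Subtype.ext
      push_cast
      rw [hd, ← zpow_natCast, hn, hpq, h2, zpow_neg, inv_inv]
  -- the elements which commute with a power of `c`
  let K : Subgroup M :=
    { carrier := {g | ∃ p : ℕ, 0 < p ∧ Commute g (d ^ p)}
      one_mem' := ⟨1, one_pos, Commute.one_left _⟩
      mul_mem' := by
        rintro a b ⟨p, hp, h1⟩ ⟨q, hq, h2⟩
        refine ⟨p * q, Nat.mul_pos hp hq, ?_⟩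
        refine Commute.mul_left ?_ ?_
        · rw [pow_mul]
          exact h1.pow_right q
        · rw [mul_comm, pow_mul]
          exact h2.pow_right p
      inv_mem' := by
        rintro a ⟨p, hp, h1⟩
        exact ⟨p, hp, h1.inv_left⟩ }
  have hKm : ∀ g, g ∈ K ↔ ∃ p : ℕ, 0 < p ∧ Commute g (d ^ p) := fun g => Iff.rfl
  have hnK : ∀ g : M, g ∉ K → ∃ p : ℕ, 0 < p ∧ g * d ^ p * g⁻¹ = (d ^ p)⁻¹ := by
    intro g hg
    obtain ⟨p, hp, h1 | h1⟩ := hpm g
    · exfalso
      apply hg
      rw [hKm]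
      exact ⟨p, hp, mul_inv_eq_iff_eq_mul.1 h1⟩
    · exact ⟨p, hp, h1⟩
  have hidx : K.FiniteIndex := by
    rw [Subgroup.finiteIndex_iff_finite_quotient]
    let f : M ⧸ K → Prop := fun q => Quotient.liftOn' q (fun g => g ∈ K) (by
      intro a b hab
      rw [QuotientGroup.leftRel_apply] at hab
      apply propext
      constructor
      · intro ha
        have := K.mul_mem ha hab
        rwa [mul_inv_cancel_left] at this
      · intro hb
        have := K.mul_mem hb (K.inv_mem hab)
        rwa [mul_inv_rev, inv_inv, mul_inv_cancel_left] at this)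
    refine Finite.of_injective f ?_
    intro x y hxy
    obtain ⟨a, rfl⟩ := QuotientGroup.mk_surjective x
    obtain ⟨b, rfl⟩ := QuotientGroup.mk_surjective y
    have hab : (a ∈ K) = (b ∈ K) := hxy
    rw [QuotientGroup.eq]
    by_cases ha : a ∈ K
    · exact K.mul_mem (K.inv_mem ha) (hab ▸ ha)
    · have hb : b ∉ K := fun hb => ha (hab ▸ hb)
      obtain ⟨p, hp, h1⟩ := hnK a ha
      obtain ⟨q, hq, h2⟩ := hnK b hb
      rw [hKm]
      refine ⟨p * q, Nat.mul_pos hp hq, ?_⟩
      have h3 : a * d ^ (p * q) * a⁻¹ = (d ^ (p * q))⁻¹ := by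
        rw [pow_mul, ← conj_pow, h1, inv_pow]
      have h4 : b * d ^ (p * q) * b⁻¹ = (d ^ (p * q))⁻¹ := by
        rw [mul_comm p q, pow_mul, ← conj_pow, h2, inv_pow]
      have h5 : b * d ^ (p * q) = (d ^ (p * q))⁻¹ * b := mul_inv_eq_iff_eq_mul.1 h4
      have h6 : a * d ^ (p * q) = (d ^ (p * q))⁻¹ * a := mul_inv_eq_iff_eq_mul.1 h3
      have h7 : a⁻¹ * (d ^ (p * q))⁻¹ = d ^ (p * q) * a⁻¹ := by
        rw [inv_mul_eq_iff_eq_mul, ← mul_assoc, h6, mul_inv_cancel_right]
      show a⁻¹ * b * d ^ (p * q) = d ^ (p * q) * (a⁻¹ * b)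
      rw [mul_assoc, h5, ← mul_assoc, h7, mul_assoc]
  refine hC.base.finiteIndex M K hidx ?_
  have hdK : d ∈ K := by
    rw [hKm]
    exact ⟨1, one_pos, by rw [pow_one]⟩
  refine ((h.sub hC M).sub hC K).local_central hC hM hA (⟨d, hdK⟩ : K) ?_ v ?_ ?_
  · rw [← Function.Injective.isOfFinOrder_iff (f := K.subtype) K.subtype_injective,
      ← Function.Injective.isOfFinOrder_iff (f := M.subtype) M.subtype_injective]
    show ¬ IsOfFinOrder (d : G)
    rwa [hd]
  · show (d : G) • v = v
    rw [hd]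
    exact hcE.1
  · rintro ⟨g, p, hp, hg⟩
    exact ⟨p, hp, Subtype.ext hg⟩

/-- finitely generated groups with finitely many orbits of edges -/
theorem Act.main_fg (hC : ClosedE C) (hM : ∀ (G : Type) [Group G], derivedSeries G 2 = ⊥ → C G)
    (hA : AcylF C) (h : Act C G T) (hfg : Group.FG G) : C G := by
  classical
  obtain ⟨v0⟩ := h.tree.connected.nonempty
  obtain ⟨W, _, T', ι, Φ, hS, ⟨w, hw⟩, hΦ, hΦ'⟩ := fg_subtree h.tree h.act hfg v0
  have hEs : ∀ u v : W, Es G u v = Es G (ι u) (ι v) := by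
    intro u v
    unfold Es
    rw [hS.stab, hS.stab]
  have h' : Act C G T' :=
    { tree := hS.tree
      act := hS.act
      vc := fun u v huv => by
        rw [hEs]
        exact h.vc _ _ (hS.adj u v huv)
      cen := fun v => by
        rw [hS.stab]
        exact h.cen _
      bal := fun u v huv c hc => by
        rw [hEs] at hc
        exact h.bal _ _ (hS.adj u v huv) c hc }
  -- a bound for the finite subgroups of the edge groups
  have hb : ∀ e : V × V, ∃ N : ℕ, e ∈ Φ → ∀ S : Subgroup (Es G e.1 e.2), Finite S → Nat.card S ≤ N := by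
    intro e
    by_cases he : e ∈ Φ
    · obtain ⟨N, hN⟩ := fin_bound (h.vc _ _ (hΦ e he))
      exact ⟨N, fun _ => hN⟩
    · exact ⟨0, fun h => absurd h he⟩
  choose m hm using hb
  have hle : ∀ e ∈ Φ, m e ≤ ∑ e ∈ Φ, m e := fun e he =>
    Finset.single_le_sum (f := m) (fun _ _ => Nat.zero_le _) he
  -- finite sets in finite subgroups of the edge groups
  have key : ∀ (u v : W), T'.Adj u v → ∀ S : Subgroup G, Finite S → S ≤ Es G (ι u) (ι v) →
      Nat.card S ≤ ∑ e ∈ Φ, m e := by
    intro u v huv S hSf hSE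
    obtain ⟨g, hg⟩ := hΦ' u v huv
    have key2 : ∀ e ∈ Φ, ({g • ι u, g • ι v} : Set V) = {e.1, e.2} → Nat.card S ≤ m e := by
      intro e he hset
      have hmem : ∀ s ∈ S, g * s * g⁻¹ ∈ Es G e.1 e.2 := by
        intro s hs
        obtain ⟨h1, h2⟩ := hSE hs
        have h1' : s • ι u = ι u := h1
        have h2' : s • ι v = ι v := h2
        have h5 : ∀ x ∈ ({g • ι u, g • ι v} : Set V), (g * s * g⁻¹) • x = x := by
          rintro x (rfl | rfl)
          · rw [mul_smul, mul_smul, inv_smul_smul, h1']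
          · rw [mul_smul, mul_smul, inv_smul_smul, h2']
        rw [hset] at h5
        exact ⟨h5 _ (Or.inl rfl), h5 _ (Or.inr rfl)⟩
      let f : S →* Es G e.1 e.2 :=
        ((MulAut.conj g).toMonoidHom.comp S.subtype).codRestrict _ fun s => hmem s s.2
      have hf : Function.Injective f := by
        intro a b hab
        have h6 : g * (a : G) * g⁻¹ = g * b * g⁻¹ := congrArg Subtype.val hab
        exact Subtype.ext (mul_left_cancel (mul_right_cancel h6))
      have hfin : Finite f.range := by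
        have : Finite (Set.range f) := Set.finite_range f |>.to_subtype
        exact this
      have h7 := hm e he f.range hfin
      have h8 : Nat.card f.range = Nat.card S :=
        Nat.card_congr (MonoidHom.ofInjective hf).symm.toEquiv
      rwa [h8] at h7
    rcases hg with hg | hg
    · exact (key2 _ hg rfl).trans (hle _ hg)
    · exact (key2 _ hg (Set.pair_comm _ _)).trans (hle _ hg)
  refine cylF hC hA h'.tree h'.act (rf_LR (T := T')) (∑ e ∈ Φ, m e) ?_ (fun v => (h'.cen v).1) ?_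
  · intro w a b ha hb hab F hF
    -- the intersection is finite
    have hfin : Finite ↥(Es G w a ⊓ Es G w b) := by
      by_contra hcon
      rw [not_finite_iff_infinite] at hcon
      apply hab
      have hIa : Infinite ((Es G w b).subgroupOf (Es G w a)) := by
        refine Infinite.of_injective (fun x : ↥(Es G w a ⊓ Es G w b) =>
          (⟨⟨x, x.2.1⟩, x.2.2⟩ : (Es G w b).subgroupOf (Es G w a))) ?_
        intro x y hxy
        exact Subtype.ext (congrArg (fun t : (Es G w b).subgroupOf (Es G w a) => ((t : Es G w a) : G)) hxy)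
      have hIb : Infinite ((Es G w a).subgroupOf (Es G w b)) := by
        refine Infinite.of_injective (fun x : ↥(Es G w a ⊓ Es G w b) =>
          (⟨⟨x, x.2.2⟩, x.2.1⟩ : (Es G w a).subgroupOf (Es G w b))) ?_
        intro x y hxy
        exact Subtype.ext (congrArg (fun t : (Es G w a).subgroupOf (Es G w b) => ((t : Es G w b) : G)) hxy)
      obtain ⟨ca, hca⟩ := h'.vc w a ha
      obtain ⟨cb, hcb⟩ := h'.vc w b hb
      refine Or.inr ⟨?_, ?_, ?_⟩
      · exact Infinite.of_injective (fun x : ↥(Es G w a ⊓ Es G w b) => (⟨x, x.2.1⟩ : Es G w a))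
          (fun x y hxy => Subtype.ext (congrArg (fun t : Es G w a => (t : G)) hxy))
      · exact Infinite.of_injective (fun x : ↥(Es G w a ⊓ Es G w b) => (⟨x, x.2.2⟩ : Es G w b))
          (fun x y hxy => Subtype.ext (congrArg (fun t : Es G w b => (t : G)) hxy))
      · exact ⟨index_of_vc hcb hIb, index_of_vc hca hIa⟩
    have h1 : Nat.card ↥(Es G w a ⊓ Es G w b) ≤ ∑ e ∈ Φ, m e := by
      refine key w a ha _ hfin ?_
      rw [← hEs]
      exact inf_le_left
    refine le_trans ?_ h1
    let f : F → ↥(Es G w a ⊓ Es G w b) := fun g =>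
      ⟨g, ⟨(hF g g.2).1, (hF g g.2).2.1⟩, ⟨(hF g g.2).1, (hF g g.2).2.2⟩⟩
    have h2 := Nat.card_le_card_of_injective f (fun x y hxy => Subtype.ext
      (congrArg (fun t : ↥(Es G w a ⊓ Es G w b) => (t : G)) hxy))
    simpa using h2
  · intro y K hK
    obtain ⟨⟨⟨v0, a0⟩, h0⟩, hy⟩ := Quotient.exists_rep y
    have h0 : T'.Adj v0 a0 := h0
    have hy : cy (rf G) h0 = y := hy
    subst hy
    by_cases hinf : Infinite (Es G v0 a0)
    · have hle : K ≤ commensurator (Es G v0 a0) := by
        intro g hg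
        rw [Commensurable.commensurator_mem_iff, ← Es_smul]
        have h3 : cy (rf G) (h'.act g v0 a0 h0) = cy (rf G) h0 := hK g hg v0 a0 h0 rfl
        exact (Rf_gen (p := dt (h'.act g v0 a0 h0)) (q := dt h0) (Quotient.exact h3)).comm
      exact C_le hC.base hle (h'.comm hC hM hA v0 a0 h0 hinf)
    · refine C_edge hC v0 a0 (h'.cen v0).1 K fun g hg => ?_
      have h1 := hK g hg v0 a0 h0 rfl
      rcases Rf_gen (p := dt (h'.act g v0 a0 h0)) (q := dt h0) (Quotient.exact h1) with
        (h | h) | ⟨_, h, _⟩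
      · exact Or.inl ⟨(congrArg Prod.fst h).symm, (congrArg Prod.snd h).symm⟩
      · exact Or.inr ⟨(congrArg Prod.snd h).symm, (congrArg Prod.fst h).symm⟩
      · exact absurd h hinf

/-- **groups acting on trees with balanced virtually cyclic edge groups** -/
theorem Act.main (hC : ClosedE C) (hM : ∀ (G : Type) [Group G], derivedSeries G 2 = ⊥ → C G)
    (hA : AcylF C) (h : Act C G T) : C G :=
  of_fg hC fun H hH => (h.sub hC H).main_fg hC hM hA hH

end Pool.Agent.U74.BC
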