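import Pool.Agent.U74.BC.Fix

/-!
# Commensurators of balanced edge groups
-/

set_option autoImplicit false

namespace Pool.Agent.U74.BC

open SimpleGraph Subgroup
open scoped Pointwise
open Subgroup.Commensurable (commensurator)
open Pool.Agent.Y110.FJ
open Pool.Agent.R941.FJ (C_equiv C_le C_cyc)
open Pool.Agent.N509.TK
open Pool.Agent.N509.TX (AcylF finedge fg_subtree STree of_fg of_fg_mem C_stab C_edge)
open Pool.Agent.N431.CE (Es mem_Es Es_comm Es_smul cylF rf rf_LR Rf Rf_gen le_comm mem_comm_iff)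
open Pool.Agent.helper444_cyc (index_of_vc)

variable {C : ∀ (G : Type) [Group G], Prop}

/-- the data of the theorem -/
structure Act (C : ∀ (G : Type) [Group G], Prop) (G : Type) {V : Type} [Group G] [MulAction G V]
    (T : SimpleGraph V) : Prop where
  tree : T.IsTree
  act : ∀ (g : G) (u v : V), T.Adj u v → T.Adj (g • u) (g • v)
  vc : ∀ u v, T.Adj u v → VCyc (Es G u v)
  cen : ∀ v : V, Cen C (MulAction.stabilizer G v)
  bal : ∀ u v, T.Adj u v → ∀ c ∈ Es G u v, ¬ IsOfFinOrder c → ∀ (g : G) (p q : ℤ), p ≠ 0 → q ≠ 0 →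
    g * c ^ p * g⁻¹ = c ^ q → |p| = |q|

variable {G V : Type} [Group G] [MulAction G V] {T : SimpleGraph V}

theorem Act.sub (hC : ClosedE C) (h : Act C G T) (H : Subgroup G) : Act C H T where
  tree := h.tree
  act g u v huv := h.act g u v huv
  vc u v huv := by
    let f : Es H u v →* Es G u v := (H.subtype.comp (Es H u v).subtype).codRestrict _ fun x => x.2
    refine VCyc.of_injective f ?_ (h.vc u v huv)
    intro a b hab
    exact Subtype.ext (Subtype.ext (congrArg (fun x : Es G u v => (x : G)) hab))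
  cen v := by
    let f : MulAction.stabilizer H v →* MulAction.stabilizer G v :=
      (H.subtype.comp (MulAction.stabilizer H v).subtype).codRestrict _ fun x => x.2
    refine Cen.of_injective hC f ?_ (h.cen v)
    intro a b hab
    exact Subtype.ext (Subtype.ext (congrArg (fun x : MulAction.stabilizer G v => (x : G)) hab))
  bal u v huv c hc hco g p q hp hq hg := by
    refine h.bal u v huv c hc ?_ g p q hp hq ?_
    · rwa [← Function.Injective.isOfFinOrder_iff (f := H.subtype) H.subtype_injective] at hco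
    · have := congrArg Subtype.val hg
      simpa using this

/-- groups with a central element which fixes a vertex, modulo this element -/
theorem Act.quo (hC : ClosedE C) (hA : AcylF C) (h : Act C G T)
    (z : G) (hz : ∀ g, z * g = g * z) (hzo : ¬ IsOfFinOrder z) (hn : (Subgroup.zpowers z).Normal)
    (v0 : V) (hv0 : z • v0 = v0) : C (G ⧸ Subgroup.zpowers z) := by
  refine Pool.Agent.U74.BC.quo hC hA h.tree h.act z hz hzo hn v0 hv0 h.vc fun v hv => ?_
  obtain ⟨z', hz'⟩ : ∃ z' : MulAction.stabilizer G v, z' = ⟨z, hv⟩ := ⟨_, rfl⟩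
  have hzz : (z' : G) = z := by rw [hz']
  have hzo' : ¬ IsOfFinOrder z' := by
    rw [← Function.Injective.isOfFinOrder_iff (f := Subgroup.subtype _) (Subgroup.subtype_injective _)]
    show ¬ IsOfFinOrder (z' : G)
    rwa [hzz]
  obtain ⟨P, _, f, hP, hf⟩ := (h.cen v).2 z' hzo'
  have htop : ∀ x : MulAction.stabilizer G v, x ∈ Subgroup.centralizer {z'} := by
    intro x
    rw [Subgroup.mem_centralizer_singleton_iff]
    apply Subtype.ext
    show (x : G) * z' = z' * x
    rw [hzz, hz]
  refine ⟨P, _, f.comp ((MonoidHom.id _).codRestrict _ htop), hP, fun x => ?_⟩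
  refine (hf ⟨x, htop x⟩).trans ?_
  constructor
  · rintro ⟨k, hk⟩
    refine ⟨k, ?_⟩
    have h1 : ((z' ^ k : MulAction.stabilizer G v) : G) = (x : G) := congrArg Subtype.val hk
    rw [Subgroup.coe_zpow, hzz] at h1
    exact h1
  · rintro ⟨k, hk⟩
    refine ⟨k, Subtype.ext ?_⟩
    show ((z' ^ k : MulAction.stabilizer G v) : G) = (x : G)
    rw [Subgroup.coe_zpow, hzz]
    exact hk

/-- groups with a central element of infinite order which fixes a vertex -/
theorem Act.central (hC : ClosedE C) (hM : ∀ (G : Type) [Group G], derivedSeries G 2 = ⊥ → C G)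
    (hA : AcylF C) (h : Act C G T) (z : G) (hz : ∀ g, z * g = g * z) (hzo : ¬ IsOfFinOrder z)
    (v0 : V) (hv0 : z • v0 = v0) : C G :=
  central_ext hC hM z hz (central_normal z hz) (h.quo hC hA z hz hzo (central_normal z hz) v0 hv0)

/-- groups in which each element commutes with a power of `c` -/
theorem Act.local_central (hC : ClosedE C)
    (hM : ∀ (G : Type) [Group G], derivedSeries G 2 = ⊥ → C G)
    (hA : AcylF C) (h : Act C G T) (c : G) (hco : ¬ IsOfFinOrder c)
    (v0 : V) (hv0 : c • v0 = v0) (hc : ∀ g : G, ∃ p : ℕ, 0 < p ∧ g * c ^ p = c ^ p * g) : C G := by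
  classical
  refine of_fg hC fun H hH => ?_
  obtain ⟨S, hS⟩ := (Group.fg_iff_subgroup_fg _).1 hH
  choose p hp0 hp using hc
  obtain ⟨m, hm⟩ : ∃ m : ℕ, m = ∏ s ∈ S, p s := ⟨_, rfl⟩
  have hm0 : 0 < m := by
    rw [hm]
    exact Finset.prod_pos fun s _ => hp0 s
  have hcen : H ≤ Subgroup.centralizer {c ^ m} := by
    rw [← hS, Subgroup.closure_le]
    intro s hs
    rw [SetLike.mem_coe, Subgroup.mem_centralizer_singleton_iff]
    obtain ⟨k, hk⟩ : p s ∣ m := by
      rw [hm]
      exact Finset.dvd_prod_of_mem p hs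
    rw [hk, pow_mul]
    have h1 : Commute s (c ^ p s) := hp s
    exact h1.pow_right k
  obtain ⟨K, hK⟩ : ∃ K : Subgroup G, K = H ⊔ Subgroup.zpowers (c ^ m) := ⟨_, rfl⟩
  have hKc : K ≤ Subgroup.centralizer {c ^ m} := by
    rw [hK]
    refine sup_le hcen ?_
    rw [Subgroup.zpowers_le, Subgroup.mem_centralizer_singleton_iff]
  have hcK : c ^ m ∈ K := by
    rw [hK]
    exact Subgroup.mem_sup_right (Subgroup.mem_zpowers _)
  refine C_le hC.base (K := K) (by rw [hK]; exact le_sup_left) ?_
  refine (h.sub hC K).central hC hM hA ⟨c ^ m, hcK⟩ ?_ ?_ v0 ?_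
  · rintro ⟨g, hg⟩
    apply Subtype.ext
    have h1 := Subgroup.mem_centralizer_singleton_iff.1 (hKc hg)
    exact h1.symm
  · rw [← Function.Injective.isOfFinOrder_iff (f := K.subtype) K.subtype_injective]
    show ¬ IsOfFinOrder (c ^ m)
    rw [isOfFinOrder_pow]
    push Not
    exact ⟨hco, hm0.ne'⟩
  · show (c ^ m) • v0 = v0
    have h1 : c ∈ MulAction.stabilizer G v0 := hv0
    exact pow_mem h1 m

end Pool.Agent.U74.BC
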