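import Pool.Agent.U74.BC.Quo

/-!
# Central elements with a fixed vertex
-/

set_option autoImplicit false

namespace Pool.Agent.U74.BC

open SimpleGraph Subgroup
open Pool.Agent.Y110.FJ
open Pool.Agent.R941.FJ (C_equiv C_le C_cyc)
open Pool.Agent.N509.TX (AcylF finedge fg_subtree STree of_fg of_fg_mem C_stab)
open Pool.Agent.N431.CE (Es mem_Es Es_comm Es_smul)
open Pool.Agent.helper444_cyc (index_of_vc)

variable {C : ∀ (G : Type) [Group G], Prop}

variable {G V : Type} [Group G] [MulAction G V] {T : SimpleGraph V}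

/-- the quotient by a central element which acts trivially -/
theorem quo_triv (hC : ClosedE C) (hA : AcylF C) (hT : T.IsTree)
    (hact : ∀ (g : G) (u v : V), T.Adj u v → T.Adj (g • u) (g • v))
    (z : G) (hzo : ¬ IsOfFinOrder z) (hn : (Subgroup.zpowers z).Normal)
    (hV0 : ∀ v : V, z • v = v) (hE : ∀ u v, T.Adj u v → VCyc (Es G u v))
    (hV : ∀ v : V, Qz C (MulAction.stabilizer G v) z) : C (G ⧸ Subgroup.zpowers z) := by
  classical
  refine of_fg hC fun Hb hHb => ?_
  obtain ⟨S, hS⟩ := (Group.fg_iff_subgroup_fg _).1 hHb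
  obtain ⟨H, hH⟩ : ∃ H : Subgroup G,
      H = Subgroup.closure (((S.image Quotient.out : Finset G) : Set G) ∪ {z}) := ⟨_, rfl⟩
  have hzH : z ∈ H := by
    rw [hH]
    exact Subgroup.subset_closure (Or.inr rfl)
  have hHfg : Group.FG H := by
    rw [Group.fg_iff_subgroup_fg]
    refine ⟨S.image Quotient.out ∪ {z}, ?_⟩
    rw [hH]
    push_cast
    rfl
  have hmap : H.map (QuotientGroup.mk' (Subgroup.zpowers z)) = Hb := by
    rw [hH, MonoidHom.map_closure, ← hS]
    apply le_antisymm
    · rw [Subgroup.closure_le]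
      rintro _ ⟨x, hx | hx, rfl⟩
      · rw [Finset.mem_coe, Finset.mem_image] at hx
        obtain ⟨s, hs, rfl⟩ := hx
        have h1 : QuotientGroup.mk' (Subgroup.zpowers z) (Quotient.out s) = s := Quotient.out_eq' s
        rw [h1]
        exact Subgroup.subset_closure hs
      · have hx' : x = z := hx
        have h1 : QuotientGroup.mk' (Subgroup.zpowers z) x = 1 := by
          rw [hx']
          exact (QuotientGroup.eq_one_iff z).2 (Subgroup.mem_zpowers z)
        rw [h1]
        exact one_mem _
    · rw [Subgroup.closure_le]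
      intro s hs
      refine Subgroup.subset_closure ⟨Quotient.out s, Or.inl ?_, Quotient.out_eq' s⟩
      rw [Finset.mem_coe, Finset.mem_image]
      exact ⟨s, hs, rfl⟩
  obtain ⟨z', hz'⟩ : ∃ z' : H, z' = ⟨z, hzH⟩ := ⟨_, rfl⟩
  have hzz : (z' : G) = z := by rw [hz']
  have hmem : ∀ x : H, x ∈ Subgroup.zpowers z' ↔ (x : G) ∈ Subgroup.zpowers z := by
    intro x
    constructor
    · rintro ⟨k, hk⟩
      refine ⟨k, ?_⟩
      have : z' ^ k = x := hk
      rw [← this]
      show z ^ k = ((z' ^ k : H) : G)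
      rw [Subgroup.coe_zpow, hzz]
    · rintro ⟨k, hk⟩
      refine ⟨k, Subtype.ext ?_⟩
      show ((z' ^ k : H) : G) = x
      rw [Subgroup.coe_zpow, hzz]
      exact hk
  have hn' : (Subgroup.zpowers z').Normal := by
    refine ⟨fun x hx g => ?_⟩
    rw [hmem] at hx ⊢
    exact hn.conj_mem _ hx _
  have hzo' : ¬ IsOfFinOrder z' := by
    rw [← Function.Injective.isOfFinOrder_iff (f := H.subtype) H.subtype_injective]
    show ¬ IsOfFinOrder (z' : G)
    rwa [hzz]
  have hactH : ∀ (g : H) (u v : V), T.Adj u v → T.Adj (g • u) (g • v) := fun g u v h => hact g u v h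
  have hq : C (H ⧸ Subgroup.zpowers z') := by
    refine quo_fg hC hA hHfg hT hactH z' hzo' hn' ?_ ?_ ?_
    · intro v
      show (z' : G) • v = v
      rw [hzz]
      exact hV0 v
    · intro u v huv
      let f : Es H u v →* Es G u v := (H.subtype.comp (Es H u v).subtype).codRestrict _ fun x => x.2
      refine VCyc.of_injective f ?_ (hE u v huv)
      intro a b hab
      exact Subtype.ext (Subtype.ext (congrArg (fun x : Es G u v => (x : G)) hab))
    · intro v
      have h1 := hV v
      rw [← hzz] at h1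
      exact Qz.comap H.subtype H.subtype_injective (fun x hx => hx) h1
  let φ : H →* Hb := ((QuotientGroup.mk' (Subgroup.zpowers z)).comp H.subtype).codRestrict Hb (by
    intro x
    rw [← hmap]
    exact ⟨x, x.2, rfl⟩)
  refine emb_of_ker hC φ ?_ (QuotientGroup.mk' (Subgroup.zpowers z')) ?_ hq
  · rintro ⟨q, hq⟩
    rw [← hmap] at hq
    obtain ⟨x, hx, hxq⟩ := hq
    exact ⟨⟨x, hx⟩, Subtype.ext hxq⟩
  · intro x
    have h1 : QuotientGroup.mk' (Subgroup.zpowers z') x = 1 ↔ x ∈ Subgroup.zpowers z' :=
      QuotientGroup.eq_one_iff x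
    rw [h1, hmem, ← QuotientGroup.eq_one_iff]
    exact ⟨fun h => congrArg Subtype.val h, fun h => Subtype.ext h⟩

/-- the quotient by a central element which fixes a vertex -/
theorem quo (hC : ClosedE C) (hA : AcylF C) (hT : T.IsTree)
    (hact : ∀ (g : G) (u v : V), T.Adj u v → T.Adj (g • u) (g • v))
    (z : G) (hz : ∀ g, z * g = g * z) (hzo : ¬ IsOfFinOrder z) (hn : (Subgroup.zpowers z).Normal)
    (v0 : V) (hv0 : z • v0 = v0) (hE : ∀ u v, T.Adj u v → VCyc (Es G u v))
    (hV : ∀ v : V, z • v = v → Qz C (MulAction.stabilizer G v) z) :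
    C (G ⧸ Subgroup.zpowers z) := by
  classical
  obtain ⟨S, hS⟩ : ∃ S : Set V, S = {v | z • v = v} := ⟨_, rfl⟩
  have hmS : ∀ v, v ∈ S ↔ z • v = v := fun v => by rw [hS]; rfl
  have hcv : ∀ u v : V, z • u = u → z • v = v → ∀ p : T.Walk u v, p.IsPath →
      ∀ x ∈ p.support, z • x = x := by
    intro u v hu hv p hp x hx
    let φ : T →g T := ⟨fun v => z • v, fun {a b} h => hact z a b h⟩
    have hinj : Function.Injective φ := MulAction.injective z
    have h1 : ((p.map φ).copy hu hv).IsPath := by
      rw [Walk.isPath_copy]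
      exact Walk.map_isPath_of_injective hinj hp
    have h2 : (p.map φ).copy hu hv = p := (hT.existsUnique_path u v).unique h1 hp
    -- the vertices at equal distances
    have h3 : (p.map φ).support = p.support := by
      have := congrArg Walk.support h2
      rwa [Walk.support_copy] at this
    rw [Walk.support_map] at h3
    obtain ⟨i, hi, rfl⟩ := List.getElem_of_mem hx
    have h4 : (p.support.map φ)[i]'(by rw [List.length_map]; exact hi) = p.support[i] := by
      simp only [h3]
    rw [List.getElem_map] at h4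
    exact h4
  have hSs : ∀ (g : G) (v : V), v ∈ S → g • v ∈ S := by
    intro g v hv
    rw [hmS] at hv ⊢
    rw [← mul_smul, hz g, mul_smul, hv]
  let iA : MulAction G S :=
    { smul := fun g v => ⟨g • (v : V), hSs g v v.2⟩
      one_smul := fun v => Subtype.ext (one_smul G (v : V))
      mul_smul := fun g h v => Subtype.ext (mul_smul g h (v : V)) }
  have hsm : ∀ (g : G) (v : S), ((g • v : S) : V) = g • (v : V) := fun _ _ => rfl
  have htree : (T.induce S).IsTree := by
    refine ⟨?_, hT.isAcyclic.induce _⟩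
    have : Nonempty S := ⟨⟨v0, (hmS v0).2 hv0⟩⟩
    refine ⟨fun v u => ?_⟩
    obtain ⟨p, hp, -⟩ := hT.existsUnique_path (v : V) (u : V)
    exact ⟨p.induce _ fun x hx => (hmS x).2 (hcv _ _ ((hmS _).1 v.2) ((hmS _).1 u.2) p hp x hx)⟩
  have hst : ∀ v : S, MulAction.stabilizer G v = MulAction.stabilizer G (v : V) := by
    intro v
    ext g
    rw [MulAction.mem_stabilizer_iff, MulAction.mem_stabilizer_iff, ← hsm]
    exact ⟨fun h => congrArg Subtype.val h, fun h => Subtype.ext h⟩
  refine quo_triv (V := S) (T := T.induce S) hC hA htree ?_ z hzo hn ?_ ?_ ?_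
  · intro g u v h
    exact hact g _ _ h
  · intro v
    exact Subtype.ext ((hmS _).1 v.2)
  · intro u v h
    have h1 : Es G u v = Es G (u : V) (v : V) := by
      unfold Es
      rw [hst, hst]
    rw [h1]
    exact hE _ _ h
  · intro v
    rw [hst]
    exact hV _ ((hmS _).1 v.2)

end Pool.Agent.U74.BC
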