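import Pool.Agent.U74.BC.Com

/-!
# Centralizers of hyperbolic elements
-/

set_option autoImplicit false

namespace Pool.Agent.U74.BC

open SimpleGraph Subgroup
open Pool.Agent.Y110.FJ
open Pool.Agent.R941.FJ (C_equiv C_le C_cyc)
open Pool.Agent.N509.TX (AcylF)
open Pool.Agent.N431.CE (Es mem_Es Es_comm Es_smul)
open Pool.Agent.Helper270.Tree (TreeAct IsAxis IsLine)

variable {C : ∀ (G : Type) [Group G], Prop}
variable {G V : Type} [Group G] [MulAction G V] {T : SimpleGraph V}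

theorem vcyc_int : VCyc (Multiplicative ℤ) := by
  refine ⟨Multiplicative.ofAdd 1, ?_⟩
  have : Subgroup.zpowers (Multiplicative.ofAdd (1 : ℤ)) = ⊤ := by
    rw [eq_top_iff]
    intro x _
    refine ⟨Multiplicative.toAdd x, ?_⟩
    show Multiplicative.ofAdd (1 : ℤ) ^ (Multiplicative.toAdd x) = x
    rw [← ofAdd_zsmul, smul_eq_mul, mul_one]
    rfl
  rw [this, Subgroup.index_top]
  exact one_ne_zero

/-- the quotient by a central hyperbolic element -/
theorem quo_hyp (hC : ClosedE C) (h : TreeAct G T) (z : G) (hz : ∀ g, z * g = g * z)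
    (hn : (Subgroup.zpowers z).Normal) (hhyp : ∀ v : V, z • v ≠ v)
    (hE : ∀ u v, T.Adj u v → VCyc (Es G u v)) : C (G ⧸ Subgroup.zpowers z) := by
  obtain ⟨L, l, hax⟩ := h.exists_axis hhyp
  have hinj := hax.line.injective h.isTree
  have hc : ∀ p : G, ∃ c : ℤ, ∀ i, p • L i = L (c + i) := fun p => h.commute_axis hax (hz p).symm
  choose τ hτ using hc
  have hmul : ∀ p q, τ (p * q) = τ p + τ q := by
    intro p q
    apply hinj
    have h1 := hτ (p * q) 0
    rw [mul_smul, hτ q, hτ p, add_zero, add_zero] at h1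
    exact h1.symm
  let f : G →* Multiplicative ℤ := MonoidHom.mk' (fun p => Multiplicative.ofAdd (τ p)) (by
    intro p q
    rw [hmul]
    rfl)
  have hf : ∀ p, f p = Multiplicative.ofAdd (τ p) := fun _ => rfl
  have hτz : τ z = l := by
    apply hinj
    have h1 := hτ z 0
    rw [hax.smul, zero_add, add_zero] at h1
    exact h1.symm
  obtain ⟨K, hK⟩ : ∃ K : Subgroup G, K = (Subgroup.zpowers (f z)).comap f := ⟨_, rfl⟩
  have hKi : K.index ≠ 0 := by
    rw [hK, Subgroup.index_comap]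
    have h1 : (Subgroup.zpowers (f z)).index ≠ 0 := by
      apply vc_index vcyc_int
      intro h2
      rw [isOfFinOrder_iff_pow_eq_one] at h2
      obtain ⟨n, hn0, hn1⟩ := h2
      rw [hf, hτz, ← ofAdd_nsmul] at hn1
      have h3 : n • (l : ℤ) = 0 := hn1
      rw [nsmul_eq_mul] at h3
      have := hax.pos
      rcases mul_eq_zero.1 h3 with h4 | h4 <;> omega
    have : (Subgroup.zpowers (f z)).FiniteIndex := ⟨h1⟩
    exact (inferInstance : ((Subgroup.zpowers (f z)).subgroupOf f.range).FiniteIndex).index_ne_zero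
  obtain ⟨Z0, hZ0⟩ : ∃ Z0 : Subgroup G, Z0 = f.ker := ⟨_, rfl⟩
  have hZm : ∀ x, x ∈ Z0 ↔ τ x = 0 := by
    intro x
    rw [hZ0, MonoidHom.mem_ker, hf]
    exact Iff.rfl
  have hZE : Z0 ≤ Es G (L 0) (L 1) := by
    intro x hx
    rw [hZm] at hx
    refine ⟨?_, ?_⟩
    · show x • L 0 = L 0
      rw [hτ, hx, add_zero]
    · show x • L 1 = L 1
      rw [hτ, hx, zero_add]
  have hvc : VCyc Z0 := VCyc.of_injective (Subgroup.inclusion hZE) (Subgroup.inclusion_injective hZE)
    (hE _ _ (by have := hax.line.adj 0; rwa [zero_add] at this))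
  obtain ⟨π, hπ⟩ : ∃ π : G →* G ⧸ Subgroup.zpowers z, π = QuotientGroup.mk' (Subgroup.zpowers z) :=
    ⟨_, rfl⟩
  have hπs : Function.Surjective π := by
    rw [hπ]
    exact QuotientGroup.mk'_surjective _
  have hπz : π z = 1 := by
    rw [hπ]
    exact (QuotientGroup.eq_one_iff z).2 (Subgroup.mem_zpowers z)
  have hidx : (K.map π).index ≠ 0 := by
    intro h0
    apply hKi
    have h1 := Subgroup.index_map_dvd (H := K) hπs
    rw [h0] at h1
    exact Nat.eq_zero_of_zero_dvd h1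
  refine hC.base.finiteIndex _ (K.map π) ⟨hidx⟩ (C_vcyc hC ?_)
  have hZK : ∀ x ∈ Z0, π x ∈ K.map π := by
    intro x hx
    refine ⟨x, ?_, rfl⟩
    rw [hZ0] at hx
    rw [hK]
    show f x ∈ Subgroup.zpowers (f z)
    rw [MonoidHom.mem_ker.1 hx]
    exact one_mem _
  refine VCyc.of_surjective ((π.comp Z0.subtype).codRestrict (K.map π) fun x => hZK x x.2) ?_ hvc
  rintro ⟨_, x, hx, rfl⟩
  rw [hK] at hx
  obtain ⟨k, hk⟩ := hx
  have hk' : f z ^ k = f x := hk
  have hx0 : x * z ^ (-k) ∈ Z0 := by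
    rw [hZ0, MonoidHom.mem_ker, map_mul, map_zpow, ← hk', zpow_neg, mul_inv_cancel]
  refine ⟨⟨x * z ^ (-k), hx0⟩, Subtype.ext ?_⟩
  show π (x * z ^ (-k)) = π x
  rw [map_mul, map_zpow, hπz, one_zpow, mul_one]

/-- **the centralizers of the elements of infinite order** -/
theorem Act.cen_all (hC : ClosedE C) (hM : ∀ (G : Type) [Group G], derivedSeries G 2 = ⊥ → C G)
    (hA : AcylF C) (h : Act C G T)
    (hinv : ∀ (g : G) (u v : V), T.Adj u v → ¬ (g • u = v ∧ g • v = u)) : Cen C G := by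
  refine ⟨h.main hC hM hA, fun z hz => ?_⟩
  obtain ⟨Z, hZ⟩ : ∃ Z : Subgroup G, Z = Subgroup.centralizer {z} := ⟨_, rfl⟩
  rw [← hZ]
  have hzZ : z ∈ Z := by
    rw [hZ, Subgroup.mem_centralizer_singleton_iff]
  obtain ⟨z', hz'⟩ : ∃ z' : Z, z' = ⟨z, hzZ⟩ := ⟨_, rfl⟩
  have hzz : (z' : G) = z := by rw [hz']
  have hcz : ∀ g : Z, z' * g = g * z' := by
    rintro ⟨g, hg⟩
    rw [hZ, Subgroup.mem_centralizer_singleton_iff] at hg
    apply Subtype.ext
    show (z' : G) * g = g * z'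
    rw [hzz, hg]
  have hn := central_normal z' hcz
  have hzo : ¬ IsOfFinOrder z' := by
    rw [← Function.Injective.isOfFinOrder_iff (f := Z.subtype) Z.subtype_injective]
    show ¬ IsOfFinOrder (z' : G)
    rwa [hzz]
  have hq : C (Z ⧸ Subgroup.zpowers z') := by
    by_cases hfix : ∃ v : V, z • v = v
    · obtain ⟨v, hv⟩ := hfix
      refine (h.sub hC Z).quo hC hA z' hcz hzo hn v ?_
      show (z' : G) • v = v
      rw [hzz]
      exact hv
    · push Not at hfix
      refine quo_hyp (G := Z) (T := T) hC ⟨h.tree, fun g u v huv => h.act g u v huv, fun g u v huv => hinv g u v huv⟩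
        z' hcz hn ?_ (h.sub hC Z).vc
      intro v
      show (z' : G) • v ≠ v
      rw [hzz]
      exact hfix v
  refine ⟨Z ⧸ Subgroup.zpowers z', inferInstance, QuotientGroup.mk' _, hq, fun x => ?_⟩
  have h1 : QuotientGroup.mk' (Subgroup.zpowers z') x = 1 ↔ x ∈ Subgroup.zpowers z' :=
    QuotientGroup.eq_one_iff x
  rw [h1]
  constructor
  · rintro ⟨k, hk⟩
    refine ⟨k, ?_⟩
    have : z' ^ k = x := hk
    rw [← this]
    show z ^ k = ((z' ^ k : Z) : G)
    rw [Subgroup.coe_zpow, hzz]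
  · rintro ⟨k, hk⟩
    refine ⟨k, Subtype.ext ?_⟩
    show ((z' ^ k : Z) : G) = x
    rw [Subgroup.coe_zpow, hzz]
    exact hk

end Pool.Agent.U74.BC
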